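import Pool.Agent.Lib.MP_011f3a_lc.LM.A.TreeB
import Pool.Agent.Lib.MP_011f3a_lc.LM.B.Kp
import Pool.Agent.Lib.MP_011f3a_lc.LM.B.Node

/-! # The combinatorial part of the key lemma (module K-SEQ)

`a j`: nodes, `par i` is the parent of the node `i + 1`, `u (i + 1)` the child of the parent above which it lies, the number `t (i + 1)` in the enumeration `n (par i)` of the children.
`S j l`: a set of sequences of length `l` (the values of `x` up to `l` which are possible below the child number `l` of the node `j`). `Un S j l` is the union of the `S j' l`, `j' ≤ j`;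
the restriction to level `D j` is injective on it for `l ≥ D j`. `Rx l x` is the initial segment of length `l` of the characteristic function of `x`.
`seq_mem`: let `κ ≤ i` be the last node `≤ i` on the branch `g`, `NoH.next` gives `i' ≥ i` with `par i' = κ`, `a (i' + 1) ∈ g`; so `a κ ++ [n κ (t (i' + 1))] ∈ g`, `t (i' + 1) ≥ D i' ≥ D i`; restrict to level `D i`.
`seq_sound`: the last node `≤ i + 1` on `g` must be `i + 1`. `seq_complete`: otherwise there is `i₀` with `Rx (D (i + 1)) x ∈ Un S i (D (i + 1))` for all `i ≥ i₀`; show by induction on `i ≥ i₀` that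
`Rx (D (i + 1)) x ∈ Un S i₀ (D (i + 1))` (there is an extension of `Rx (D i) x` in `Un S i₀ (D (i + 1))`, the restriction from level `D (i + 1)` to level `D i` is injective on `Un S i (D (i + 1))`), so all `Rx l x` belong to `Un S i₀ l`. -/

namespace Pool.Agent.Lib.MP_011f3a_lc.LM

open Classical in
/-- the initial segment of length `l` of the characteristic function of `x` -/
noncomputable def Rx (l : ℕ) (x : Set ℕ) : List Bool := List.ofFn fun i : Fin l => decide ((i : ℕ) ∈ x)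

theorem length_Rx (l : ℕ) (x : Set ℕ) : (Rx l x).length = l := by simp [Rx]

theorem take_Rx {l l' : ℕ} (h : l ≤ l') (x : Set ℕ) : (Rx l' x).take l = Rx l x := by
  apply List.ext_getElem
  · simp [Rx, h]
  · intro i h1 h2
    simp [Rx]

theorem ini_iff {σ : List Bool} {x : Set ℕ} : Ini σ x ↔ σ = Rx σ.length x := by
  constructor
  · intro h
    apply List.ext_getElem
    · simp [Rx]
    · intro i h1 h2
      have h3 := h i h1
      simp only [Rx, List.getElem_ofFn]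
      rw [Bool.eq_iff_iff]
      simpa using h3
  · intro h i hi
    have h1 : σ[i] = (Rx σ.length x)[i]'(by rw [length_Rx]; exact hi) := by
      congr 1
    rw [h1]
    simp [Rx]

/-- a tree with at most `N` nodes on each level -/
structure Thin (N : ℕ) (S : ℕ → Finset (List Bool)) : Prop where
  card : ∀ i, (S i).card ≤ N
  len : ∀ i, ∀ σ ∈ S i, σ.length = i
  res : ∀ i, ∀ σ ∈ S (i + 1), σ.take i ∈ S i
  ext : ∀ i, ∀ σ ∈ S i, ∃ τ ∈ S (i + 1), τ.take i = σ

/-- the parent of the node `i + 1` -/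
def par (i : ℕ) : ℕ := (Nat.unpair i).1

theorem par_le (i : ℕ) : par i ≤ i := Nat.unpair_left_le i

theorem par_inf (j N : ℕ) : ∃ i ≥ N, par i = j :=
  ⟨Nat.pair j N, Nat.right_le_pair j N, by simp [par]⟩

/-- the union of the first trees -/
def Un (S : ℕ → ℕ → Finset (List Bool)) (j l : ℕ) : Set (List Bool) := {σ | ∃ j' ≤ j, σ ∈ S j' l}

/-- the combinatorial data -/
structure KSeq (md : Md) (a : ℕ → List ℕ) (u t D : ℕ → ℕ) (n : ℕ → ℕ → ℕ) (S : ℕ → ℕ → Finset (List Bool)) : Prop where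
  no : NoH md a par fun i => u (i + 1)
  thin : ∀ j, ∃ N, Thin N (S j)
  mono : StrictMono D
  inj : ∀ j l, D j ≤ l → Set.InjOn (List.take (D j)) (Un S j l)
  tD : ∀ i, D i ≤ t (i + 1)
  nu : ∀ i, n (par i) (t (i + 1)) = u (i + 1)

variable {md : Md} {a : ℕ → List ℕ} {u t D : ℕ → ℕ} {n : ℕ → ℕ → ℕ} {S : ℕ → ℕ → Finset (List Bool)}

theorem Thin.mem_of_le {N : ℕ} {S : ℕ → Finset (List Bool)} (h : Thin N S) {i j : ℕ} (hij : i ≤ j) {x : Set ℕ} (hx : Rx j x ∈ S j) :
    Rx i x ∈ S i := by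
  induction j, hij using Nat.le_induction with
  | base => exact hx
  | succ j hij ih =>
    apply ih
    have h1 := h.res j _ hx
    rwa [take_Rx (Nat.le_succ j)] at h1

private theorem seq_ext {N : ℕ} {S : ℕ → Finset (List Bool)} (h : Thin N S) {i j : ℕ} (hij : i ≤ j) {σ : List Bool}
    (hσ : σ ∈ S i) : ∃ τ ∈ S j, τ.take i = σ := by
  induction j, hij using Nat.le_induction with
  | base =>
    refine ⟨σ, hσ, ?_⟩
    rw [List.take_of_length_le (by rw [h.len i σ hσ])]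
  | succ j hij ih =>
    obtain ⟨τ, hτ, h1⟩ := ih
    obtain ⟨τ', hτ', h2⟩ := h.ext j τ hτ
    refine ⟨τ', hτ', ?_⟩
    rw [← h1, ← h2, List.take_take, min_eq_left hij]

private theorem seq_res {N : ℕ} {S : ℕ → Finset (List Bool)} (h : Thin N S) {i j : ℕ} (hij : i ≤ j) {σ : List Bool}
    (hσ : σ ∈ S j) : σ.take i ∈ S i := by
  induction j, hij using Nat.le_induction generalizing σ with
  | base => rwa [List.take_of_length_le (by rw [h.len i σ hσ])]
  | succ j hij ih =>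
    have h1 := ih (h.res j σ hσ)
    rwa [List.take_take, min_eq_left hij] at h1

private theorem seq_max (f : ℕ → ℕ) (B : ℕ) (hf : ∀ l, f l ≤ B) : ∃ L, ∀ l, f l ≤ f L := by
  by_contra hc
  push Not at hc
  have key : ∀ m, ∃ l, m ≤ f l := by
    intro m
    induction m with
    | zero => exact ⟨0, Nat.zero_le _⟩
    | succ m ih =>
      obtain ⟨l, hl⟩ := ih
      obtain ⟨l', hl'⟩ := hc l
      exact ⟨l', by omega⟩
  obtain ⟨l, hl⟩ := key (B + 1)
  have := hf l
  omega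

theorem exists_sep (h : ∀ j, ∃ N, Thin N (S j)) (j D₀ : ℕ) : ∃ D > D₀, ∀ l, D ≤ l → Set.InjOn (List.take D) (Un S j l) := by
  classical
  choose N hN using h
  let U : ℕ → Finset (List Bool) := fun l => (Finset.range (j + 1)).biUnion fun j' => S j' l
  have hU : ∀ l σ, σ ∈ U l ↔ ∃ j' ≤ j, σ ∈ S j' l := by
    intro l σ
    simp [U, Nat.lt_succ_iff]
  have hres : ∀ l l', l ≤ l' → (U l').image (List.take l) = U l := by
    intro l l' hl
    ext σ
    simp only [Finset.mem_image, hU]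
    constructor
    · rintro ⟨τ, ⟨j', hj', hτ⟩, rfl⟩
      exact ⟨j', hj', seq_res (hN j') hl hτ⟩
    · rintro ⟨j', hj', hσ⟩
      obtain ⟨τ, hτ, h1⟩ := seq_ext (hN j') hl hσ
      exact ⟨τ, ⟨j', hj', hτ⟩, h1⟩
  have hmono : ∀ l l', l ≤ l' → (U l).card ≤ (U l').card := by
    intro l l' hl
    rw [← hres l l' hl]
    exact Finset.card_image_le
  obtain ⟨L, hL⟩ := seq_max (fun l => (U l).card) (∑ j' ∈ Finset.range (j + 1), N j') (fun l => by
    refine (Finset.card_biUnion_le).trans (Finset.sum_le_sum fun j' _ => (hN j').card l))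
  refine ⟨max L (D₀ + 1), by have := le_max_right L (D₀ + 1); omega, fun l hl => ?_⟩
  have h1 : (U l).card ≤ (U (max L (D₀ + 1))).card := (hL l).trans (hmono _ _ (le_max_left _ _))
  have h2 : ((U l).image (List.take (max L (D₀ + 1)))).card = (U l).card := by
    rw [hres _ _ hl]
    exact le_antisymm (hmono _ _ hl) h1
  have h3 := Finset.card_image_iff.1 h2
  intro σ hσ τ hτ e
  exact h3 (by simpa using (hU l σ).2 hσ) (by simpa using (hU l τ).2 hτ) e

end Pool.Agent.Lib.MP_011f3a_lc.LM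

/-! # The combinatorial part of the key lemma, part 2 (module K-SEQB)

See the header of K/Seq.lean. -/

namespace Pool.Agent.Lib.MP_011f3a_lc.LM

variable {md : Md} {a : ℕ → List ℕ} {u t D : ℕ → ℕ} {n : ℕ → ℕ → ℕ} {S : ℕ → ℕ → Finset (List Bool)}

theorem seq_mem (h : KSeq md a u t D n S) {g : Set (List ℕ)} (hg : Branch g) (hs : g ⊆ Cl a) {x : Set ℕ}
    (hx : ∀ j, a j ∈ g → ∀ i, a j ++ [n j i] ∈ g → Rx i x ∈ S j i) (i : ℕ) :
    ∃ κ ≤ i, a κ ∈ g ∧ (∀ j, κ < j → j ≤ i → a j ∉ g) ∧ Rx (D i) x ∈ S κ (D i) := by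
  classical
  have h0 : a 0 ∈ g := h.no.zero_mem hg hs
  have hκ1 : Nat.findGreatest (fun j => a j ∈ g) i ≤ i := Nat.findGreatest_le i
  have hκ2 : a (Nat.findGreatest (fun j => a j ∈ g) i) ∈ g :=
    Nat.findGreatest_spec (P := fun j => a j ∈ g) (Nat.zero_le i) h0
  have hκ3 : ∀ j, Nat.findGreatest (fun j => a j ∈ g) i < j → j ≤ i → a j ∉ g := fun j h1 h2 =>
    Nat.findGreatest_is_greatest h1 h2
  generalize Nat.findGreatest (fun j => a j ∈ g) i = κ at hκ1 hκ2 hκ3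
  obtain ⟨i', hi', hp, hm⟩ := h.no.next hg hs hκ1 hκ2 hκ3
  refine ⟨κ, hκ1, hκ2, hκ3, ?_⟩
  have h1 : a (par i') ++ [u (i' + 1)] ∈ g := hg.of_prefix (h.no.above i') hm
  have h2 : n (par i') (t (i' + 1)) = u (i' + 1) := h.nu i'
  rw [hp] at h1 h2
  rw [← h2] at h1
  have h3 := hx κ hκ2 _ h1
  obtain ⟨N, hN⟩ := h.thin κ
  exact hN.mem_of_le ((h.mono.monotone hi').trans (h.tD i')) h3

theorem seq_sound (h : KSeq md a u t D n S) {g : Set (List ℕ)} (hg : Branch g) (hs : g ⊆ Cl a) {x : Set ℕ}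
    (hx : ∀ j, a j ∈ g → ∀ i, a j ++ [n j i] ∈ g → Rx i x ∈ S j i) {i : ℕ} (hi : Rx (D (i + 1)) x ∉ Un S i (D (i + 1))) :
    a (i + 1) ∈ g := by
  obtain ⟨κ, h1, h2, -, h4⟩ := seq_mem h hg hs hx (i + 1)
  rcases Nat.lt_or_ge κ (i + 1) with h5 | h5
  · exact absurd ⟨κ, Nat.lt_succ_iff.1 h5, h4⟩ hi
  · have h6 : κ = i + 1 := le_antisymm h1 h5
    rw [h6] at h2
    exact h2

private theorem seqb_ext {N : ℕ} {S : ℕ → Finset (List Bool)} (h : Thin N S) {i j : ℕ} (hij : i ≤ j) :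
    ∀ σ ∈ S i, ∃ τ ∈ S j, τ.take i = σ := by
  induction j, hij using Nat.le_induction with
  | base =>
    intro σ hσ
    exact ⟨σ, hσ, by rw [List.take_of_length_le (h.len i σ hσ).le]⟩
  | succ j hj ih =>
    intro σ hσ
    obtain ⟨τ, hτ, h1⟩ := ih σ hσ
    obtain ⟨ρ, hρ, h2⟩ := h.ext j τ hτ
    refine ⟨ρ, hρ, ?_⟩
    rw [← h1, ← h2, List.take_take, min_eq_left hj]

private theorem seqb_get (l : ℕ) (x : Set ℕ) (m : ℕ) : (Rx l x)[m]? = some true ↔ m < l ∧ m ∈ x := by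
  classical
  unfold Rx
  by_cases hm : m < l
  · rw [List.getElem?_ofFn]
    simp [hm]
  · rw [List.getElem?_ofFn]
    simp [hm]

/-- the real given by the branch of `Un S i` through `σ` -/
def yv (S : ℕ → ℕ → Finset (List Bool)) (D : ℕ → ℕ) (i : ℕ) (σ : List Bool) : Set ℕ :=
  {m | ∃ l τ, D i ≤ l ∧ τ ∈ Un S i l ∧ τ.take (D i) = σ ∧ τ[m]? = some true}

theorem seq_complete (h : KSeq md a u t D n S) {g : Set (List ℕ)} (hg : Branch g) (hs : g ⊆ Cl a) {x : Set ℕ}
    (hx : ∀ j, a j ∈ g → ∀ i, a j ++ [n j i] ∈ g → Rx i x ∈ S j i) (hy : ∀ i σ, x ≠ yv S D i σ) (N : ℕ) :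
    ∃ i ≥ N, Rx (D (i + 1)) x ∉ Un S i (D (i + 1)) := by
  by_contra hc
  push Not at hc
  have hcl : ∀ i, N ≤ i → Rx (D (i + 1)) x ∈ Un S N (D (i + 1)) := by
    intro i hi
    induction i, hi using Nat.le_induction with
    | base => exact hc N le_rfl
    | succ i hi ih =>
      obtain ⟨j', hj', h1⟩ := ih
      obtain ⟨M, hM⟩ := h.thin j'
      have hD : D (i + 1) ≤ D (i + 1 + 1) := h.mono.monotone (Nat.le_succ _)
      obtain ⟨τ, hτ, h2⟩ := seqb_ext hM hD _ h1
      have h3 := hc (i + 1) (hi.trans (Nat.le_succ _))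
      have h4 : τ ∈ Un S (i + 1) (D (i + 1 + 1)) := ⟨j', hj'.trans (hi.trans (Nat.le_succ _)), hτ⟩
      have h5 : Rx (D (i + 1 + 1)) x = τ := by
        refine h.inj (i + 1) _ hD h3 h4 ?_
        rw [h2, take_Rx hD]
      rw [h5]
      exact ⟨j', hj', hτ⟩
  have hall : ∀ l, Rx l x ∈ Un S N l := by
    intro l
    obtain ⟨j', hj', h1⟩ := hcl (max N l) (le_max_left _ _)
    obtain ⟨M, hM⟩ := h.thin j'
    refine ⟨j', hj', hM.mem_of_le ?_ h1⟩
    exact ((le_max_right N l).trans (Nat.le_succ _)).trans (h.mono.le_apply)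
  refine hy N (Rx (D N) x) ?_
  ext m
  constructor
  · intro hm
    refine ⟨max (D N) (m + 1), Rx (max (D N) (m + 1)) x, le_max_left _ _, hall _, take_Rx (le_max_left _ _) x, ?_⟩
    rw [seqb_get]
    exact ⟨lt_of_lt_of_le (Nat.lt_succ_self m) (le_max_right _ _), hm⟩
  · rintro ⟨l, τ, h1, h2, h3, h4⟩
    have h5 : τ = Rx l x := by
      refine h.inj N l h1 h2 (hall l) ?_
      rw [h3, take_Rx h1]
    rw [h5, seqb_get] at h4
    exact h4.2

/-- the function which computes initial segments of the branch from initial segments of `x` -/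
def kf (a : ℕ → List ℕ) (D : ℕ → ℕ) (S : ℕ → ℕ → Finset (List Bool)) : Set (List Bool × List ℕ) :=
  {z | ∃ i, z.1.length = D (i + 1) ∧ z.1 ∉ Un S i (D (i + 1)) ∧ z.2 = a (i + 1)}

/-- soundness and completeness of a code `f` for the branch `g` and the real `x` -/
structure SC (f : Set (List Bool × List ℕ)) (x : Set ℕ) (g : Set (List ℕ)) : Prop where
  sound : ∀ z ∈ f, Ini z.1 x → z.2 ∈ g
  complete : ∀ m, ∃ z ∈ f, Ini z.1 x ∧ m ≤ z.2.length

theorem seq_sc (h : KSeq md a u t D n S) {g : Set (List ℕ)} (hg : Branch g) (hs : g ⊆ Cl a) {x : Set ℕ}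
    (hx : ∀ j, a j ∈ g → ∀ i, a j ++ [n j i] ∈ g → Rx i x ∈ S j i) (hy : ∀ i σ, x ≠ yv S D i σ) :
    SC (kf a D S) x g := by
  refine ⟨?_, ?_⟩
  · rintro ⟨σ, b⟩ ⟨i, h1, h2, h3⟩ hi
    simp only at h1 h2 h3 hi
    rw [ini_iff, h1] at hi
    rw [hi] at h2
    show b ∈ g
    rw [h3]
    exact seq_sound h hg hs hx h2
  · intro m
    have hinj : Set.InjOn (fun j => (a j).length) {j | a j ∈ g ∧ (a j).length < m} := by
      intro j hj j' hj' he
      have h1 : a j <+: a j' := hg.2 _ hj.1 _ hj'.1 (le_of_eq he)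
      exact h.no.inj (h1.eq_of_length he)
    have hfin : {j | a j ∈ g ∧ (a j).length < m}.Finite := by
      refine Set.Finite.of_injOn (t := Set.Iio m) ?_ hinj (Set.finite_Iio m)
      intro j hj
      exact hj.2
    obtain ⟨N, hN⟩ := hfin.bddAbove
    obtain ⟨i, hi, h1⟩ := seq_complete h hg hs hx hy N
    have h2 : a (i + 1) ∈ g := seq_sound h hg hs hx h1
    refine ⟨(Rx (D (i + 1)) x, a (i + 1)), ⟨i, length_Rx _ _, h1, rfl⟩, ?_, ?_⟩
    · show Ini (Rx (D (i + 1)) x) x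
      rw [ini_iff, length_Rx]
    · show m ≤ (a (i + 1)).length
      by_contra hlt
      have h3 : i + 1 ≤ N := hN ⟨h2, not_le.1 hlt⟩
      omega

end Pool.Agent.Lib.MP_011f3a_lc.LM

/-! # The density argument (module H-MAIN)

`d`, `δ` from `exists_dat`; `q = tr τ d.h`; `q ≤ p`: take `ε` bounding the support of `p` (`Om2.cof`) and `β > ε` with `Works`: `tr β d.h = tr β q' ≤ tr β p`, so `tr τ d.h ≤ tr τ (tr β p) = p`. `cde T f` is the set of the pairs `(σ, bits r)` with `(σ, a) ∈ f` and a kept node `a' <+: a` of `T` of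
index `r`; `C G = cde (ev d.T (rs δ G)) (ev d.f (rs δ G))`. Given `s ≤ q`, `y`: `exists_bd_real`: `s₁ ≤ s`, `ε`, `y'`, `Bd ε s₁`; `β > ε` with `Works`: `q'`, `x`. `u = tr β s₁ ≤ tr β q = tr β q'`; `s₂` = join of `u` and `q'`; `s₂ ≤ s₁` because `Bd ε s₁`, `ε < β`; `s₃ ≤ s₂`: `exists_upd` at `β` with the tree
`Cd (ev (q'.co β) G) (y' (rs ε G))` (`cd_tc`, `cd_subset`, `bt_cd`). It forces `gb β G ⊆ Cd …` (`gb_sub`, `bt_ev_mkn`) and `SC`; then `ph_of_sc`. -/

namespace Pool.Agent.Lib.MP_011f3a_lc.LM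

open Cardinal

variable {Ω : Type} [LinearOrder Ω] [WellFoundedLT Ω] {md : Md} {ζ ξ η τ δ β : Ω}

/-- the code of a continuous function -/
def cde (T : Set (List ℕ)) (f : Set (List Bool × List ℕ)) : Set (List Bool × List Bool) :=
  {z | ∃ a r a', (z.1, a) ∈ f ∧ Kp T r a' ∧ a' <+: a ∧ z.2 = bits r}

/-- `y` is the value at `x` of the continuous function with code `C` -/
def Ph (C : Set (List Bool × List Bool)) (x y : Set ℕ) : Prop :=
  (∀ z ∈ C, Ini z.1 x → Ini z.2 y) ∧ ∀ m, ∃ z ∈ C, Ini z.1 x ∧ m ≤ z.2.length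

theorem ph_of_sc {T : Set (List ℕ)} {f : Set (List Bool × List ℕ)} {x y : Set ℕ} {g : Set (List ℕ)} (hT : TC md T) (hn : Nm T)
    (hg : Branch g) (hs : g ⊆ Cd T y) (h : SC f x g) : Ph (cde T f) x y := by
  constructor
  · rintro z ⟨a, r, a', hz, hr, ha, hb⟩ hx
    have h1 : a ∈ g := h.sound (z.1, a) hz hx
    have h2 : a' ∈ g := hg.of_prefix ha h1
    rw [hb]
    exact pty_iff.1 (pty_of_mem hT hn hr (hs h2))
  · intro m
    obtain ⟨r, a', hrm, hr, ha'⟩ := exists_kp_branch hT hn hg (hs.trans (cd_subset hT)) m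
    obtain ⟨z, hz, hzx, hzl⟩ := h.complete a'.length
    have h1 : z.2 ∈ g := h.sound z hz hzx
    refine ⟨(z.1, bits r), ⟨z.2, r, a', hz, hr, hg.2 a' ha' z.2 h1 hzl, rfl⟩, hzx, ?_⟩
    show m ≤ (bits r).length
    rw [length_bits, hrm]

theorem ph_unique {C : Set (List Bool × List Bool)} {x y y' : Set ℕ} (h : Ph C x y) (h' : Ph C x y') : y = y' := by
  ext n
  obtain ⟨z, hz, hzx, hzl⟩ := h.2 (n + 1)
  have h1 := h.1 z hz hzx n (by omega)
  have h2 := h'.1 z hz hzx n (by omega)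
  rw [← h1, ← h2]

/-- continuity -/
theorem ph_cont {C : Set (List Bool × List Bool)} {x y : Set ℕ} (h : Ph C x y) (n : ℕ) :
    ∃ m, ∀ x' y', Ph C x' y' → (∀ i < m, (i ∈ x ↔ i ∈ x')) → ∀ i < n, (i ∈ y ↔ i ∈ y') := by
  obtain ⟨z, hz, hzx, hzl⟩ := h.2 n
  refine ⟨z.1.length, fun x' y' h' hxx i hi => ?_⟩
  have hzx' : Ini z.1 x' := fun j hj => (hzx j hj).trans (hxx j hj)
  have h1 := h.1 z hz hzx i (by omega)
  have h2 := h'.1 z hz hzx' i (by omega)
  rw [← h1, ← h2]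

theorem bpr_cde {P : Type} [Preorder P] {T : Flt P → Set (List ℕ)} {f : Flt P → Set (List Bool × List ℕ)} (hT : BT T)
    (hf : ∀ z, BPr fun G => z ∈ f G) (z : List Bool × List Bool) : BPr fun G => z ∈ cde (T G) (f G) :=
  BPr.exists fun a => BPr.exists fun r => BPr.exists fun a' =>
    (hf (z.1, a)).and ((bt_kp hT r a').and ((BPr.const _).and (BPr.const _)))

end Pool.Agent.Lib.MP_011f3a_lc.LM
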