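import Pool.Agent.Lib.MP_011f3a_lc.LM.K.Prep

/-! # The step of the main recursion, part 2 (module K-STEPB)

`exists_child_node`: join `c` and `y.r` (`exists_join`); `t = max t₀ (u₀ + 1)`: decide the value `u = y.n t` (`DV`), `u ≥ t > u₀` (`PrG.mono`, `StrictMono.le_apply`); `y.a ++ [u]` belongs to the tree at `β` (`PrG.mem`): `exists_restr`; decide the first splitting node `a` of the restricted tree (`exists_St`, `nm_abv`;
in the Laver case it is `y.a ++ [u]`, `Laver.st_abv`); `prep` with `k = y.k`. `y'.D` is arbitrary here. -/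

namespace Pool.Agent.Lib.MP_011f3a_lc.LM

variable {Ω : Type} [LinearOrder Ω] [WellFoundedLT Ω] {md : Md} {ζ β η : Ω} {p : Cn Ω md ζ} {x : Flt (Cn Ω md ζ) → Set ℕ}

/-- the new node -/
theorem exists_child_node (hβ : β < ζ) (hx : ∀ n, BPr fun G => n ∈ x G) (c : Cn Ω md β) (y : KE Ω md ζ β) (hy : KN p x c y)
    (t₀ u₀ : ℕ) : ∃ c' ≤ c, ∃ y' : KE Ω md ζ β, KN p x c' y' ∧ y'.k = y.k ∧ KP c' y y' ∧ t₀ ≤ y'.t ∧ u₀ < y'.u := by
  set t := max t₀ (u₀ + 1) with ht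
  -- the child
  obtain ⟨v, hv, u, hu⟩ := (hy.dn t).decide c
  obtain ⟨N₀, hN₀⟩ := hy.pr
  have htu : t ≤ u := by
    obtain ⟨G, -, h1, h2⟩ := ((hN₀.mono hv).and hu).exists
    have h3 := h1.mono.le_apply (x := t)
    rw [← h2]
    exact h3
  have hmem : FA v fun G => y.a ++ [u] ∈ ev (y.r.co β) G := by
    refine (hN₀.mono hv).imp₂ hu fun G _ h1 h2 => ?_
    rw [← h2]
    exact h1.mem t
  obtain ⟨r₁, hr₁v, hr₁co, hr₁, -⟩ := exists_join hβ.le y.r v (hv.trans hy.le)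
  have hs : FA (tr β r₁) fun G => y.a ++ [u] ∈ ev (r₁.co β) G := by
    rw [hr₁v, hr₁co β le_rfl]
    exact hmem
  obtain ⟨ρ, hρ, hρβ, hρco, hρη, hρtp⟩ := exists_restr hβ r₁ hs
  have hρv : tr β ρ = v := hρβ.trans hr₁v
  obtain ⟨ρ', hρ', hnρ', -, hρ'eq⟩ := exists_norm ρ
  have hρ'ρ : ρ' ≤ ρ := (hρ' 0).le
  have hρ'v : tr β ρ' ≤ v := by
    have h1 := tr_mono hρ'ρ β
    rwa [hρv] at h1
  -- the first splitting node
  have h1 : FA (tr β ρ') fun G => ∃ a, St (ev (ρ'.co β) G) a :=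
    (ρ'.good β).imp₂ (hnρ' β hβ) fun G _ h2 h3 => exists_St h2 h3
  obtain ⟨v', hv', a, ha⟩ := FA.exists_of_BPr (fun a => bt_st (bt_ev (ρ'.co β)) a) h1
  have hv'v : v' ≤ v := hv'.trans hρ'v
  have hlav : md = Md.laver → a = y.a ++ [u] := by
    intro hmd
    subst hmd
    have h2 : FA v' fun G => ev (ρ.co β) G = abv (ev (r₁.co β) G) (y.a ++ [u]) := by
      rw [hρco]
      exact bt_ev_mkn (bt_abv (bt_ev _) _) v'
    rw [hr₁co β le_rfl] at h2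
    have h3 : FA v' fun G => Nm (ev (y.r.co β) G) := (hy.nr β hβ).mono (hv'v.trans (hv.trans hy.le))
    have h4 : FA v' fun G => TC Md.laver (ev (y.r.co β) G) := (y.r.good β).mono (hv'v.trans (hv.trans hy.le))
    have h5 : FA v' fun G => St (ev (y.r.co β) G) y.a := hy.st.mono (hv'v.trans hv)
    have h6 := (hρ'eq β hβ).mono hv'
    obtain ⟨G, -, ⟨⟨h7, h8⟩, h9, h10⟩, ⟨h11, h12⟩, h13⟩ :=
      (((h2.and h3).and (h4.and h5)).and ((h6.and ha).and (hmem.mono hv'v))).exists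
    have h14 : Nm (ev (ρ.co β) G) := by
      rw [h7]
      exact nm_abv h8 _
    rw [h11 h14, h7] at h12
    exact h12.unique (Laver.st_abv h9 h10 h13 (List.prefix_append _ _))
  obtain ⟨r, hr, hrw, hnr, hst, htle, S, n, N, hS, hn', hpr, hfx⟩ := prep hβ ρ' hnρ' hx y.k hy.kz v' hv' a ha
  have hrv : tr β r ≤ v := hrw.trans hv'v
  have hry : r ≤ y.r := hr.trans (hρ'ρ.trans (hρ.trans hr₁))
  refine ⟨tr β r, hrv.trans hv, ⟨r, a, S, n, y.k, 0, u, t⟩, ?_, rfl, ?_, le_max_left _ _, ?_⟩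
  · exact ⟨le_rfl, hry.trans hy.lep, hnr, hst, hS, hn', ⟨N, hpr⟩, hfx, hy.kz⟩
  · refine ⟨hry, fun ξ hβξ hξζ => ?_, fun ξ => le_rfl, (le_tp_iff hβ).1 (hr.trans (hρ'ρ.trans hρtp)), hu.mono hrv,
      hlav⟩
    have h2 := (hρ' y.k ξ hξζ).mono (tr_mono hr ξ)
    rw [hρη ξ hβξ, hr₁co ξ hβξ.le] at h2
    exact (htle ξ hβξ hξζ).imp₂ h2 fun G _ h3 h4 => h3.trans h4
  · exact lt_of_lt_of_le (lt_of_lt_of_le (Nat.lt_succ_self u₀) (le_max_right _ _)) htu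

end Pool.Agent.Lib.MP_011f3a_lc.LM
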