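import Pool.Agent.Lib.MP_011f3a_lc.LM.K.Step
import Pool.Agent.Lib.MP_011f3a_lc.LM.K.StepB

/-! # The step of the main recursion, part 3 (module K-STEPC)

`kstep_succ`: `h.length = i + 1`, parent `y = h[par i]`, `exists_child_node` with `t₀ = (h[i]).D` and `u₀` = the maximum of the `u` of the nodes in `h`; then `exists_kD` for the list of the names `S` of all nodes with `D₀ = (h[i]).D`, `exists_kk` with `m = i + 1` for the list of all conditions; change `y'.k` and `y'.D` accordingly. -/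

namespace Pool.Agent.Lib.MP_011f3a_lc.LM

variable {Ω : Type} [LinearOrder Ω] [WellFoundedLT Ω] {md : Md} {ζ β η : Ω} {p : Cn Ω md ζ} {x : Flt (Cn Ω md ζ) → Set ℕ}

private theorem kstc_kn {c c' : Cn Ω md β} {y : KE Ω md ζ β} (h : KN p x c y) (hc : c' ≤ c) : KN p x c' y := by
  obtain ⟨N, hN⟩ := h.pr
  exact ⟨hc.trans h.le, h.lep, h.nr, h.st.mono hc, h.dS, h.dn, ⟨N, hN.mono hc⟩, h.fx, h.kz⟩

private theorem kstc_kp {c c' : Cn Ω md β} {y y' : KE Ω md ζ β} (h : KP c y y') (hc : c' ≤ c) : KP c' y y' :=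
  ⟨h.le, h.tle, h.kle, h.sub.mono hc, h.nu.mono hc, h.lav⟩

private theorem kstc_left {E : Type*} {l : List E} {y : E} {j : ℕ} (hj : j < l.length) (hj' : j < (l ++ [y]).length) :
    (l ++ [y])[j]'hj' = l[j] := List.getElem_append_left hj

private theorem kstc_right {E : Type*} {l : List E} {y : E} {j : ℕ} (hj : j = l.length) (hj' : j < (l ++ [y]).length) :
    (l ++ [y])[j]'hj' = y := by
  subst hj
  simp

private theorem kstc_bound (h : List (KE Ω md ζ β)) : ∃ m, ∀ y ∈ h, y.u ≤ m := by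
  induction h with
  | nil => exact ⟨0, fun y hy => absurd hy List.not_mem_nil⟩
  | cons z h ih =>
    obtain ⟨m, hm⟩ := ih
    refine ⟨max m z.u, fun y hy => ?_⟩
    rcases List.mem_cons.1 hy with h1 | h1
    · subst h1
      exact le_max_right _ _
    · exact (hm y h1).trans (le_max_left _ _)

theorem kstep_succ (hβ : β < ζ) (hx : ∀ n, BPr fun G => n ∈ x G) (c : Cn Ω md β) (h : List (KE Ω md ζ β)) (hh : h ≠ [])
    (hk : KOk β p x c h) : ∃ c' ≤ c, ∃ y, KOk β p x c' (h ++ [y]) := by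
  obtain ⟨i, hi⟩ : ∃ i, h.length = i + 1 := by
    have h1 := List.length_pos_iff.2 hh
    exact ⟨h.length - 1, by omega⟩
  have hil : i < h.length := by omega
  have hpl : par i < h.length := (par_le i).trans_lt hil
  obtain ⟨u₀, hu₀⟩ := kstc_bound h
  obtain ⟨c₁, hc₁, y', hy', hyk, hyp, hyt, hyu⟩ :=
    exists_child_node hβ hx c (h[par i]) (hk.kn _ (List.getElem_mem hpl)) (h[i]).D u₀
  obtain ⟨c₂, hc₂, D, hD, hinj⟩ := exists_kD c₁ ((h ++ [y']).map fun y => y.S)
    (fun S hS => by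
      obtain ⟨y, hy, rfl⟩ := List.mem_map.1 hS
      rcases List.mem_append.1 hy with h1 | h1
      · exact (hk.kn y h1).dS
      · rw [List.mem_singleton] at h1
        subst h1
        exact hy'.dS)
    (fun S hS => by
      obtain ⟨y, hy, rfl⟩ := List.mem_map.1 hS
      rcases List.mem_append.1 hy with h1 | h1
      · obtain ⟨N, hN⟩ := (hk.kn y h1).pr
        exact ⟨N, (hN.mono hc₁).imp fun G _ h2 => h2.thin⟩
      · rw [List.mem_singleton] at h1
        subst h1
        obtain ⟨N, hN⟩ := hy'.pr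
        exact ⟨N, hN.imp fun G _ h2 => h2.thin⟩)
    (h[i]).D
  obtain ⟨k', hk'z, hk'le, hk'k⟩ := exists_kk β y'.k hy'.kz ((h ++ [y']).map fun y => y.r) (i + 1)
  have hc₂c : c₂ ≤ c := hc₂.trans hc₁
  set y'' : KE Ω md ζ β := ⟨y'.r, y'.a, y'.S, y'.n, k', D, y'.u, y'.t⟩ with hy''
  have hlen : (h ++ [y'']).length = i + 2 := by
    rw [List.length_append, List.length_singleton, hi]
  -- every condition of the new list is in the list of conditions
  have hS : ∀ (j : ℕ) (hj : j < (h ++ [y'']).length), ((h ++ [y''])[j]'hj).S ∈ (h ++ [y']).map fun y => y.S := by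
    intro j hj
    rcases lt_or_ge j h.length with h1 | h1
    · rw [kstc_left h1]
      exact List.mem_map.2 ⟨_, List.mem_append_left _ (List.getElem_mem h1), rfl⟩
    · rw [kstc_right (by omega)]
      exact List.mem_map.2 ⟨y', List.mem_append_right _ (List.mem_singleton_self _), rfl⟩
  have hR : ∀ (j : ℕ) (hj : j < (h ++ [y'']).length), ((h ++ [y''])[j]'hj).r ∈ (h ++ [y']).map fun y => y.r := by
    intro j hj
    rcases lt_or_ge j h.length with h1 | h1
    · rw [kstc_left h1]
      exact List.mem_map.2 ⟨_, List.mem_append_left _ (List.getElem_mem h1), rfl⟩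
    · rw [kstc_right (by omega)]
      exact List.mem_map.2 ⟨y', List.mem_append_right _ (List.mem_singleton_self _), rfl⟩
  refine ⟨c₂, hc₂c, y'', ?_, ?_, ?_, ?_, ?_, ?_, ?_⟩
  · intro y hy
    rcases List.mem_append.1 hy with h1 | h1
    · exact kstc_kn (hk.kn y h1) hc₂c
    · rw [List.mem_singleton] at h1
      subst h1
      have h2 := kstc_kn hy' hc₂
      exact ⟨h2.le, h2.lep, h2.nr, h2.st, h2.dS, h2.dn, h2.pr, h2.fx, hk'z⟩
  · intro j hj
    rcases lt_or_ge (j + 1) h.length with h1 | h1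
    · rw [kstc_left h1, kstc_left ((par_le j).trans_lt (j.lt_succ_self.trans h1))]
      exact kstc_kp (hk.kp j h1) hc₂c
    · have hji : j = i := by omega
      subst hji
      rw [kstc_right (j := j + 1) (by omega), kstc_left hpl]
      have h2 := kstc_kp hyp hc₂
      refine ⟨h2.le, h2.tle, fun ξ => ?_, h2.sub, h2.nu, h2.lav⟩
      have h3 := hk'le ξ
      rw [hyk] at h3
      exact h3
  · intro j hj
    rcases lt_or_ge (j + 1) h.length with h1 | h1
    · rw [kstc_left h1, kstc_left (j.lt_succ_self.trans h1)]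
      exact hk.tD j h1
    · have hji : j = i := by omega
      subst hji
      rw [kstc_right (j := j + 1) (by omega), kstc_left hil]
      exact hyt
  · intro j₁ j hj hij hpar
    rcases lt_or_ge (j + 1) h.length with h1 | h1
    · rw [kstc_left h1, kstc_left (by omega)]
      exact hk.uu j₁ j h1 hij hpar
    · have hji : j = i := by omega
      subst hji
      have h2 : j₁ + 1 < h.length := by omega
      rw [kstc_right (j := j + 1) (by omega), kstc_left h2]
      exact lt_of_le_of_lt (hu₀ _ (List.getElem_mem h2)) hyu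
  · intro j hj
    rcases lt_or_ge (j + 1) h.length with h1 | h1
    · rw [kstc_left h1, kstc_left (j.lt_succ_self.trans h1)]
      exact hk.DD j h1
    · have hji : j = i := by omega
      subst hji
      rw [kstc_right (j := j + 1) (by omega), kstc_left hil]
      exact hD
  · intro j hj
    rcases lt_or_ge j h.length with h1 | h1
    · rw [kstc_left h1]
      refine ((hk.inj j h1).mono hc₂c).imp fun G _ h2 l hl => (h2 l hl).mono ?_
      rintro σ ⟨j', hj', hσ⟩
      rw [kstc_left (hj'.trans_lt h1)] at hσ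
      exact ⟨j', hj', hσ⟩
    · rw [kstc_right (j := j) (by omega)]
      refine hinj.imp fun G _ h2 l hl => (h2 l hl).mono ?_
      rintro σ ⟨j', hj', hσ⟩
      exact ⟨_, hS j' (hj'.trans_lt hj), hσ⟩
  · intro j j' i' hj hj' hi' hen
    rcases lt_or_ge j h.length with h1 | h1
    · simp only [kstc_left h1, kstc_left (hj'.trans_lt h1)] at hen ⊢
      exact hk.kk j j' i' h1 hj' hi' hen
    · have hji : j = i + 1 := by omega
      subst hji
      have h3 := hk'k _ (hR j' (hj'.trans_lt hj)) i' hi' hen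
      rw [kstc_right (j := i + 1) (by omega)]
      exact h3

theorem kstep (hβ : β < ζ) (hx : ∀ n, BPr fun G => n ∈ x G) (hn : NR p) (c : Cn Ω md β) (h : List (KE Ω md ζ β)) (hc : c ≤ tr β p)
    (hk : KOk β p x c h) : ∃ c' ≤ c, ∃ y, KOk β p x c' (h ++ [y]) := by
  by_cases hh : h = []
  · subst hh
    exact kstep_zero hβ hx hn c hc
  · exact kstep_succ hβ hx c h hh hk

end Pool.Agent.Lib.MP_011f3a_lc.LM

/-! # The generic sequence of nodes (module K-GEN)

`exists_gsys` with `Ok = KOk β p x`, `w = tr β p`. `KGen p x A e`: the result. `kgen_seq`: in the extension by `G ∩ P_β` the sequences `(e j G).a, …` satisfy `KSeq` (`GSys.fa` with a statement about lists for each clause; `List.ofFn`). `NoH.above`: the first splitting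
node of `r_{i+1}(β)` extends the child (`KP.sub`, `TC.of_subset_abv`, it is a splitting node). -/

namespace Pool.Agent.Lib.MP_011f3a_lc.LM

variable {Ω : Type} [LinearOrder Ω] [WellFoundedLT Ω] {md : Md} {ζ β η : Ω} {p : Cn Ω md ζ} {x : Flt (Cn Ω md ζ) → Set ℕ}

/-- the result of the recursion -/
def KGen (β : Ω) (p : Cn Ω md ζ) (x : Flt (Cn Ω md ζ) → Set ℕ) (A : ℕ → Set (Cn Ω md β × List (KE Ω md ζ β)))
    (e : ℕ → Flt (Cn Ω md β) → KE Ω md ζ β) : Prop := GSys (KOk β p x) (tr β p) A e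

theorem exists_kgen (hβ : β < ζ) (hx : ∀ n, BPr fun G => n ∈ x G) (hn : NR p) : ∃ A e, KGen β p x A e :=
  exists_gsys (KOk β p x) (tr β p) (fun _ _ _ hk hc => hk.mono hc) (kok_nil _)
    (fun c h hc hk => kstep hβ hx hn c h hc hk)

private theorem K_Gen_pre {T : Set (List ℕ)} {b s : List ℕ} (hb : St T b)
    (hs : T ⊆ abv Set.univ s) : s <+: b := by
  have h1 : b ∈ abv Set.univ s := hs hb.1.1
  rcases h1.2 with h | h
  · obtain ⟨r, rfl⟩ := h
    cases r with
    | nil => rw [List.append_nil]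
    | cons n₀ r =>
      exfalso
      obtain ⟨n, hn, hm⟩ := hb.1.2 (n₀ + 1)
      have h2 := hs hm
      rcases h2.2 with h3 | h3
      · rw [List.prefix_append_right_inj, List.cons_prefix_cons] at h3
        omega
      · rw [List.prefix_append_right_inj, List.cons_prefix_cons] at h3
        omega
  · exact h

private theorem K_Gen_get {α : Type*} {l : ℕ} (f : Fin l → α) (j : ℕ) (hj : j < l) :
    (List.ofFn f)[j]? = some (f ⟨j, hj⟩) := by
  rw [List.getElem?_ofFn, dif_pos hj]

private theorem K_Gen_opt {P : Type} [Preorder P] {c : P} {E : Type*} (o : Option E)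
    (Φ : E → Flt P → Prop) (h : ∀ y, o = some y → FA c (Φ y)) :
    FA c fun G => ∀ y, o = some y → Φ y G := by
  cases o with
  | none => exact FA.of_forall fun G _ y hy => by cases hy
  | some y0 => exact (h y0 rfl).imp fun G _ hG y hy => by cases hy; exact hG

variable {A : ℕ → Set (Cn Ω md β × List (KE Ω md ζ β))} {e : ℕ → Flt (Cn Ω md β) → KE Ω md ζ β}

private theorem K_Gen_F1 (hg : KGen β p x A e) : FA (tr β p) fun G => ∀ j, ∃ N,
    Thin N fun i => (e j G).S i G := by
  have h := GSys.fa hg (Ψ := fun (h : List (KE Ω md ζ β)) G => ∀ (j : ℕ) (y : KE Ω md ζ β),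
      h[j]? = some y → ∃ N, Thin N fun i => y.S i G) (by
    intro c h hk
    refine FA.all fun j => K_Gen_opt _ _ fun y hy => ?_
    obtain ⟨N, hN⟩ := (hk.kn y (List.mem_of_getElem? hy)).pr
    exact hN.imp fun G _ hG => ⟨N, hG.thin⟩)
  refine h.imp fun G _ hG j => ?_
  exact hG (j + 1) j _ (K_Gen_get _ j (Nat.lt_succ_self j))

private theorem K_Gen_F2 (hg : KGen β p x A e) : FA (tr β p) fun G => ∀ i,
    (e (par i) G).a ++ [(e (i + 1) G).u] <+: (e (i + 1) G).a ∧
      (e (par i) G).n (e (i + 1) G).t G = (e (i + 1) G).u := by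
  have h := GSys.fa hg (Ψ := fun (h : List (KE Ω md ζ β)) G => ∀ (i : ℕ) (y : KE Ω md ζ β),
      h[par i]? = some y → ∀ y' : KE Ω md ζ β, h[i + 1]? = some y' →
      (y.a ++ [y'.u] <+: y'.a ∧ y.n y'.t G = y'.u)) (by
    intro c h hk
    refine FA.all fun i => K_Gen_opt _ _ fun y hy => K_Gen_opt _ _ fun y' hy' => ?_
    obtain ⟨hi, e2⟩ := List.getElem?_eq_some_iff.1 hy'
    obtain ⟨hi0, e1⟩ := List.getElem?_eq_some_iff.1 hy
    have h1 := hk.kp i hi
    rw [e1, e2] at h1
    have h2 := (hk.kn y' (List.mem_of_getElem? hy')).st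
    refine FA.imp₂ h1.sub (FA.and h2 h1.nu) fun G _ h3 h4 => ⟨K_Gen_pre h4.1 h3, h4.2⟩)
  refine h.imp fun G _ hG i => ?_
  exact hG (i + 2) i _ (K_Gen_get _ (par i) (by have := par_le i; omega)) _
    (K_Gen_get _ (i + 1) (Nat.lt_succ_self _))

private theorem K_Gen_F3 (hg : KGen β p x A e) : FA (tr β p) fun G => ∀ j l, (e j G).D ≤ l →
    Set.InjOn (List.take (e j G).D) {σ | ∃ j' ≤ j, σ ∈ (e j' G).S l G} := by
  have h := GSys.fa hg (Ψ := fun (h : List (KE Ω md ζ β)) G => ∀ (j : ℕ), ∀ hj : j < h.length,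
      ∀ l, (h[j]).D ≤ l →
      Set.InjOn (List.take (h[j]).D) {σ | ∃ (j' : ℕ) (hj' : j' ≤ j), σ ∈ (h[j']).S l G}) (by
    intro c h hk
    refine FA.all fun j => ?_
    by_cases hj : j < h.length
    · exact (hk.inj j hj).imp fun G _ hG _ => hG
    · exact FA.of_forall fun G _ hj' => absurd hj' hj)
  refine h.imp fun G _ hG j l hl => ?_
  have h1 := hG (j + 1) j (by rw [List.length_ofFn]; exact Nat.lt_succ_self j) l
  rw [List.getElem_ofFn] at h1
  have h2 := h1 hl
  have e1 : {σ | ∃ (j' : ℕ) (hj' : j' ≤ j),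
      σ ∈ ((List.ofFn fun i : Fin (j + 1) => e i G)[j']'(by
        rw [List.length_ofFn]; omega)).S l G} = {σ | ∃ j' ≤ j, σ ∈ (e j' G).S l G} := by
    ext σ
    simp only [List.getElem_ofFn, Set.mem_ofPred_eq, exists_prop]
  rw [e1] at h2
  exact h2

theorem kgen_seq (hg : KGen β p x A e) : FA (tr β p) fun G => KSeq md (fun j => (e j G).a) (fun j => (e j G).u)
    (fun j => (e j G).t) (fun j => (e j G).D) (fun j i => (e j G).n i G) fun j i => (e j G).S i G := by
  refine FA.imp₂ (K_Gen_F1 hg) (FA.and (K_Gen_F2 hg) (FA.and (K_Gen_F3 hg) (GSys.fa_mem hg)))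
    fun G _ h1 h2 => ?_
  obtain ⟨h2, h3, h4⟩ := h2
  refine ⟨⟨par_le, par_inf, fun i => (h2 i).1, ?_, ?_⟩, h1, ?_, h3, ?_, fun i => (h2 i).2⟩
  · intro i i' hii hp
    obtain ⟨c, _, hk⟩ := h4 (i' + 2)
    have h5 := hk.uu i i' (by rw [List.length_ofFn]; omega) hii hp
    simpa only [List.getElem_ofFn] using h5
  · intro hm i
    obtain ⟨c, _, hk⟩ := h4 (i + 2)
    have h5 := (hk.kp i (by rw [List.length_ofFn]; omega)).lav hm
    simpa only [List.getElem_ofFn] using h5
  · refine strictMono_nat_of_lt_succ fun i => ?_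
    obtain ⟨c, _, hk⟩ := h4 (i + 2)
    have h5 := hk.DD i (by rw [List.length_ofFn]; omega)
    simpa only [List.getElem_ofFn] using h5
  · intro i
    obtain ⟨c, _, hk⟩ := h4 (i + 2)
    have h5 := hk.tD i (by rw [List.length_ofFn]; omega)
    simpa only [List.getElem_ofFn] using h5

end Pool.Agent.Lib.MP_011f3a_lc.LM

/-! # The generic sequence of nodes, part 2 (module K-GENB)

`kgen_sub`: `NoH.sub` (B/Node.lean) with `R j = ev ((e j G).r.co β) G`. `kgen_k`: `KOk.kk`, `mem_en`. `kgen_kn`: `GSys.fa_mem`. -/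

namespace Pool.Agent.Lib.MP_011f3a_lc.LM

variable {Ω : Type} [LinearOrder Ω] [WellFoundedLT Ω] {md : Md} {ζ β η : Ω} {p : Cn Ω md ζ} {x : Flt (Cn Ω md ζ) → Set ℕ}

variable {A : ℕ → Set (Cn Ω md β × List (KE Ω md ζ β))} {e : ℕ → Flt (Cn Ω md β) → KE Ω md ζ β}

/-- the tree `T_ω` above the node `j` is contained in the tree of the condition `r_j` -/
theorem kgen_sub (hg : KGen β p x A e) : FA (tr β p) fun G => ∀ j,
    Cl (fun j => (e j G).a) ∩ abv Set.univ (e j G).a ⊆ ev ((e j G).r.co β) G := by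
  have h1 : FA (tr β p) fun G => ∀ l : ℕ, ∀ i : ℕ, ∀ hi : i < (List.ofFn fun i : Fin l => e i G).length,
      IsTree (ev (((List.ofFn fun i : Fin l => e i G)[i]).r.co β) G) ∧
        ((List.ofFn fun i : Fin l => e i G)[i]).a ∈ ev (((List.ofFn fun i : Fin l => e i G)[i]).r.co β) G := by
    refine GSys.fa (Ψ := fun h G => ∀ i : ℕ, ∀ hi : i < h.length,
      IsTree (ev ((h[i]).r.co β) G) ∧ (h[i]).a ∈ ev ((h[i]).r.co β) G) hg ?_
    intro c h hk
    refine FA.all fun i => ?_
    by_cases hi : i < h.length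
    · have hy := hk.kn _ (List.getElem_mem hi)
      refine FA.imp₂ (FA.mono ((h[i]).r.good β) hy.le) hy.st ?_
      intro G _ h2 h3 _
      exact ⟨h2.isTree, h3.mem⟩
    · exact FA.of_forall fun G _ hi' => absurd hi' hi
  have h2 : FA (tr β p) fun G => ∀ l : ℕ, ∀ i : ℕ, ∀ hi : i + 1 < (List.ofFn fun i : Fin l => e i G).length,
      ev (((List.ofFn fun i : Fin l => e i G)[i + 1]).r.co β) G ⊆
        ev (((List.ofFn fun i : Fin l => e i G)[par i]'((par_le i).trans_lt (i.lt_succ_self.trans hi))).r.co β) G := by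
    refine GSys.fa (Ψ := fun h G => ∀ i : ℕ, ∀ hi : i + 1 < h.length,
      ev ((h[i + 1]).r.co β) G ⊆ ev ((h[par i]'((par_le i).trans_lt (i.lt_succ_self.trans hi))).r.co β) G) hg ?_
    intro c h hk
    refine FA.all fun i => ?_
    by_cases hi : i + 1 < h.length
    · have hy := hk.kn _ (List.getElem_mem hi)
      have hp := hk.kp i hi
      rcases lt_or_ge β ζ with hβ | hβ
      · refine FA.imp (FA.mono (Cn.le_iff.1 hp.le β hβ) hy.le) ?_
        intro G _ h3 _
        exact h3
      · refine FA.of_forall fun G _ _ => ?_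
        rw [Cn.co_of_le _ hβ, Cn.co_of_le _ hβ]
    · exact FA.of_forall fun G _ hi' => absurd hi' hi
  refine FA.imp (FA.and (kgen_seq hg) (FA.and h1 h2)) ?_
  rintro G _ ⟨hs, h3, h4⟩ j
  refine hs.no.sub (fun j => ev ((e j G).r.co β) G) ?_ ?_ ?_ j
  · intro j
    have h5 := (h3 (j + 1) j (by rw [List.length_ofFn]; exact Nat.lt_succ_self j)).1
    rw [List.getElem_ofFn] at h5
    exact h5
  · intro j
    have h5 := (h3 (j + 1) j (by rw [List.length_ofFn]; exact Nat.lt_succ_self j)).2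
    rw [List.getElem_ofFn] at h5
    exact h5
  · intro i
    have h5 := h4 (i + 2) i (by rw [List.length_ofFn]; exact Nat.lt_succ_self (i + 1))
    rw [List.getElem_ofFn, List.getElem_ofFn] at h5
    exact h5

/-- the kept parts become large on all supports -/
theorem kgen_k (hg : KGen β p x A e) : FA (tr β p) fun G => (∀ i ξ, (e (par i) G).k ξ ≤ (e (i + 1) G).k ξ) ∧
    ∀ j, ∀ ξ ∈ (e j G).r.supp, β < ξ → ∀ m, ∃ i, ∀ j' ≥ i, m ≤ (e j' G).k ξ := by
  refine FA.imp (GSys.fa_mem hg) ?_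
  intro G _ hG
  refine ⟨?_, ?_⟩
  · intro i ξ
    obtain ⟨c, _, hk⟩ := hG (i + 2)
    have h1 := (hk.kp i (by rw [List.length_ofFn]; exact Nat.lt_succ_self (i + 1))).kle ξ
    rw [List.getElem_ofFn, List.getElem_ofFn] at h1
    exact h1
  · intro j ξ hξ hβξ m
    obtain ⟨t, ht⟩ := mem_en (e j G).r ξ hξ
    refine ⟨max j (max t m), fun j' hj' => ?_⟩
    obtain ⟨c, _, hk⟩ := hG (j' + 1)
    have hj1 : j ≤ j' := (le_max_left _ _).trans hj'
    have ht1 : t ≤ j' := ((le_max_left _ _).trans (le_max_right _ _)).trans hj'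
    have hm1 : m ≤ j' := ((le_max_right _ _).trans (le_max_right _ _)).trans hj'
    have h1 := hk.kk j' j t (by rw [List.length_ofFn]; exact Nat.lt_succ_self j') hj1 ht1
    rw [List.getElem_ofFn, List.getElem_ofFn] at h1
    have h2 : en (e j G).r t = ξ := ht
    have h3 : β < en (e j G).r t := by rw [h2]; exact hβξ
    have h4 := h1 h3
    have h5 : (j' + 1) ≤ (e j' G).k ξ := by
      have h6 : (j' + 1) ≤ (e j' G).k (en (e j G).r t) := h4
      rwa [h2] at h6
    omega

/-- the properties of the nodes and their parents for the conditions in the filter -/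
theorem kgen_kn (hg : KGen β p x A e) : FA (tr β p) fun G => ∀ j, ∃ c ∈ G.car, KN p x c (e j G) ∧
    ∀ i, j = i + 1 → KP c (e (par i) G) (e j G) := by
  refine FA.imp (GSys.fa_mem hg) ?_
  intro G _ hG j
  obtain ⟨c, hc, hk⟩ := hG (j + 1)
  refine ⟨c, hc, ?_, ?_⟩
  · have hj : j < (List.ofFn fun i : Fin (j + 1) => e i G).length := by
      rw [List.length_ofFn]; exact Nat.lt_succ_self j
    have h1 := hk.kn _ (List.getElem_mem hj)
    rw [List.getElem_ofFn] at h1
    exact h1
  · intro i hi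
    subst hi
    have h1 := hk.kp i (by rw [List.length_ofFn]; exact Nat.lt_succ_self (i + 1))
    rw [List.getElem_ofFn, List.getElem_ofFn] at h1
    exact h1

end Pool.Agent.Lib.MP_011f3a_lc.LM

/-! # The limit condition (module K-LIM)

`w` with `tr β p ≥ w` captures the `A l` (`cw_all β 0`); `C l` countable (`GSys.cap`). `exists_glp` with `T G = Cl fun j => (e j G).a`, index type of the `(j, x, y)` with `x ∈ C (j + 1)` and last entry `y` of `x.2`; `B = {b | b ≤ x.1}`, string `y.a`, condition `y.r` (`y = e j G` for a filter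
`G ∋ x.1`). Hypothesis `h` of `exists_glp`: for a generic filter the active indices are the nodes on the branch `gb β G`, which form a path `J` (`NoH.path`); the conditions `tr η r_{J s}` belong to the filter, so their trees at `η` form a fusion sequence for
`k_{J s} η` (`KP.tle`, `kgen_k`) if `η` belongs to the support of one of them (`FusH`; drop the first terms), and all are `univ` otherwise. -/

namespace Pool.Agent.Lib.MP_011f3a_lc.LM

variable {Ω : Type} [LinearOrder Ω] [WellFoundedLT Ω] {md : Md} {ζ β η : Ω} {p : Cn Ω md ζ} {x : Flt (Cn Ω md ζ) → Set ℕ}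
  {A : ℕ → Set (Cn Ω md β × List (KE Ω md ζ β))} {e : ℕ → Flt (Cn Ω md β) → KE Ω md ζ β}

/-- what is known about one node whose condition is in the filter -/
private theorem klim_one (hβη : β < η) (hη : η < ζ) (hg : KGen β p x A e) (v : Cn Ω md η) :
    FA v fun G => ∀ j, (∃ c : Cn Ω md β, KN p x c (e j (rs β G))) → tr η (e j (rs β G)).r ∈ G.car →
      TC md (ev ((e j (rs β G)).r.co η) G) ∧ Nm (ev ((e j (rs β G)).r.co η) G) := by
  refine FA.all fun j => ?_
  have hd : DV fun G : Flt (Cn Ω md η) => e j (rs β G) := DV.proj hβη.le (hg.dv j)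
  refine DV.fa (Ψ := fun y G => (∃ c : Cn Ω md β, KN p x c y) → tr η y.r ∈ G.car →
      TC md (ev (y.r.co η) G) ∧ Nm (ev (y.r.co η) G)) hd fun v' _ y _ => ?_
  by_cases hy : ∃ c : Cn Ω md β, KN p x c y
  · obtain ⟨c, hc⟩ := hy
    exact ((Cn.good y.r η).cond v').imp₂ ((hc.nr η hη).cond v') fun G _ h1 h2 _ h3 => ⟨h1 h3, h2 h3⟩
  · exact FA.of_forall fun G _ h => absurd h hy

/-- what is known about a node and its parent -/
private theorem klim_two (hβη : β < η) (hη : η < ζ) (hg : KGen β p x A e) (v : Cn Ω md η) :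
    FA v fun G => ∀ i, (∃ c : Cn Ω md β, KP c (e (par i) (rs β G)) (e (i + 1) (rs β G))) →
      tr η (e (i + 1) (rs β G)).r ∈ G.car →
      TLe ((e (par i) (rs β G)).k η) (ev ((e (i + 1) (rs β G)).r.co η) G) (ev ((e (par i) (rs β G)).r.co η) G) := by
  refine FA.all fun i => ?_
  have hd : DV fun G : Flt (Cn Ω md η) => (e (par i) (rs β G), e (i + 1) (rs β G)) :=
    (DV.proj hβη.le (hg.dv (par i))).pair (DV.proj hβη.le (hg.dv (i + 1)))
  refine DV.fa (Ψ := fun y G => (∃ c : Cn Ω md β, KP c y.1 y.2) → tr η y.2.r ∈ G.car →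
      TLe (y.1.k η) (ev (y.2.r.co η) G) (ev (y.1.r.co η) G)) hd fun v' _ y _ => ?_
  by_cases hy : ∃ c : Cn Ω md β, KP c y.1 y.2
  · obtain ⟨c, hc⟩ := hy
    exact ((hc.tle η hβη hη).cond v').imp fun G _ h1 _ h3 => h1 h3
  · exact FA.of_forall fun G _ h => absurd h hy

/-- the fusion along a path of nodes -/
theorem klim_path (hβ : β < ζ) (hg : KGen β p x A e) (hβη : β < η) (hη : η < ζ) (v : Cn Ω md η) (hv : tr β v ≤ tr β p)
    (hs : FA v fun G => gb β G ⊆ Cl fun j => (e j (rs β G)).a)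
    (hm : FA v fun G => ∀ j, (e j (rs β G)).a ∈ gb β G → tr η (e j (rs β G)).r ∈ G.car) :
    FA v fun G => TC md {s | ∀ j, (e j (rs β G)).a ∈ gb β G → s ∈ ev ((e j (rs β G)).r.co η) G} := by
  have h1 : FA v fun G => Branch (gb β G) := gb_branch hβη v
  have h2 := FA.proj hβη.le ((kgen_seq hg).mono hv)
  have h3 := FA.proj hβη.le ((kgen_k hg).mono hv)
  have h4 := FA.proj hβη.le ((kgen_kn hg).mono hv)
  have h5 := klim_one hβη hη hg v
  have h6 := klim_two hβη hη hg v
  refine ((((h1.and h2).and (h3.and h4)).and ((h5.and h6).and (hs.and hm)))).imp ?_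
  rintro G _ ⟨⟨⟨g1, g2⟩, g3, g4⟩, ⟨g5, g6⟩, gs, gm⟩
  obtain ⟨J, hJ0, hJm, hJg, hJa, hJs⟩ := g2.no.path g1 gs
  have hcar : ∀ t, tr η (e (J t) (rs β G)).r ∈ G.car := fun t => gm _ (hJg t)
  have hkn : ∀ j, ∃ c : Cn Ω md β, KN p x c (e j (rs β G)) := fun j => by
    obtain ⟨c, _, hc, _⟩ := g4 j
    exact ⟨c, hc⟩
  have hset : {s | ∀ j, (e j (rs β G)).a ∈ gb β G → s ∈ ev ((e j (rs β G)).r.co η) G} =
      ⋂ t, ev ((e (J t) (rs β G)).r.co η) G := by
    ext s
    simp only [Set.mem_setOf_eq, Set.mem_iInter]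
    constructor
    · intro h t
      exact h _ (hJg t)
    · intro h j hj
      obtain ⟨t, rfl⟩ := hJa j hj
      exact h t
  rw [hset]
  by_cases hsupp : ∃ t₀, η ∈ (e (J t₀) (rs β G)).r.supp
  · obtain ⟨t₀, ht₀⟩ := hsupp
    have hF : FusH md (fun t => ev ((e (J t) (rs β G)).r.co η) G) (fun t => (e (J t) (rs β G)).k η) := by
      refine ⟨fun t => (g5 _ (hkn _) (hcar t)).1, fun t => (g5 _ (hkn _) (hcar t)).2, fun t => ?_, fun t => ?_,
        fun m => ?_⟩
      · obtain ⟨i, hi, hp⟩ := hJs t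
        show TLe ((e (J t) (rs β G)).k η) (ev ((e (J (t + 1)) (rs β G)).r.co η) G) (ev ((e (J t) (rs β G)).r.co η) G)
        rw [hi, ← hp]
        refine g6 i ?_ ?_
        · obtain ⟨c, _, _, hc⟩ := g4 (i + 1)
          exact ⟨c, hc i rfl⟩
        · rw [← hi]
          exact hcar (t + 1)
      · obtain ⟨i, hi, hp⟩ := hJs t
        show (e (J t) (rs β G)).k η ≤ (e (J (t + 1)) (rs β G)).k η
        rw [hi, ← hp]
        exact g3.1 i η
      · obtain ⟨i, hi⟩ := g3.2 (J t₀) η ht₀ hβη m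
        exact ⟨i, hi (J i) (hJm.le_apply)⟩
    exact hF.tc_inter
  · have : (⋂ t, ev ((e (J t) (rs β G)).r.co η) G) = Set.univ := by
      refine Set.iInter_eq_univ.2 fun t => ?_
      have h7 : (e (J t) (rs β G)).r.co η = full _ _ := by
        by_contra hc
        exact hsupp ⟨t, hc⟩
      rw [h7]
      exact ev_full G
    rw [this]
    exact TC.univ

end Pool.Agent.Lib.MP_011f3a_lc.LM
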