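import Pool.Agent.Lib.MP_011f3a_lc.LM.G.Bound
import Pool.Agent.Lib.MP_011f3a_lc.LM.K.StepC

/-! # The limit condition, part 2 (module K-LIMB)

See the header of K/Lim.lean. `q ≤ p`: `Cn.sep` (every `v ≤ q` has an extension below some `x.1`, `x ∈ C 1`, and below `tp ζ β y.a`, so below `y.r ≤ p`). -/

namespace Pool.Agent.Lib.MP_011f3a_lc.LM

variable {Ω : Type} [LinearOrder Ω] [WellFoundedLT Ω] {md : Md} {ζ β η : Ω} {p : Cn Ω md ζ} {x : Flt (Cn Ω md ζ) → Set ℕ}
  {A : ℕ → Set (Cn Ω md β × List (KE Ω md ζ β))} {e : ℕ → Flt (Cn Ω md β) → KE Ω md ζ β}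

/-- every element of `A (j + 1)` has a last entry -/
private theorem klimB_last (hg : KGen β p x A e) (j : ℕ) {z : Cn Ω md β × List (KE Ω md ζ β)} (hz : z ∈ A (j + 1)) :
    ∃ y ∈ z.2, z.2.getLast? = some y := by
  have h1 := hg.len _ z hz
  have h2 : z.2 ≠ [] := by
    intro h
    rw [h] at h1
    simp at h1
  exact ⟨z.2.getLast h2, List.getLast_mem h2, List.getLast?_eq_getLast_of_ne_nil h2⟩

private theorem klimB_val (hg : KGen β p x A e) {j : ℕ} {z : Cn Ω md β × List (KE Ω md ζ β)} {y : KE Ω md ζ β}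
    (hz : z ∈ A (j + 1)) (hy : z.2.getLast? = some y) {G : Flt (Cn Ω md β)} (hG : z.1 ∈ G.car) : e j G = y := by
  have h1 := hg.val _ z hz G hG
  rw [h1, List.ofFn_succ', List.concat_eq_append, List.getLast?_append] at hy
  simpa using hy

theorem exists_klim (hβ : β < ζ) (hg : KGen β p x A e) : ∃ q ≤ p,
    (FA q fun G => gb β G ⊆ Cl fun j => (e j (rs β G)).a) ∧
    FA q fun G => ∀ j, (e j (rs β G)).a ∈ gb β G → (e j (rs β G)).r ∈ G.car := by
  classical
  -- a condition which captures the sets `A l`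
  let D : ℕ → Set (Cn Ω md β) := fun l => {c | ∃ z ∈ A l, c ≤ z.1}
  have hDo : ∀ l, Opn (D l) := fun l c hc c' hc' => by
    obtain ⟨z, hz, h1⟩ := hc
    exact ⟨z, hz, hc'.trans h1⟩
  have hDd : ∀ l, DnsB (D l) (tr β p) := fun l c hc => by
    obtain ⟨r, hr, z, hz, h1⟩ := hg.dns l c hc
    exact ⟨r, hr, z, hz, h1⟩
  obtain ⟨w, hwp, hcap⟩ := cw_all (md := md) β 0 (tr β p) D hDo hDd
  have hw : w ≤ tr β p := hwp.le
  obtain ⟨C, hCc, hCA, hCd⟩ := hg.cap hw hcap
  -- the index type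
  let ι := {i : ℕ × (Cn Ω md β × List (KE Ω md ζ β)) // i.2 ∈ C (i.1 + 1)}
  have hιc : Countable ι := by
    have h1 : (⋃ j : ℕ, (fun z => (j, z)) '' C (j + 1)).Countable :=
      Set.countable_iUnion fun j => (hCc (j + 1)).image _
    have h2 : {i : ℕ × (Cn Ω md β × List (KE Ω md ζ β)) | i.2 ∈ C (i.1 + 1)} ⊆ ⋃ j : ℕ, (fun z => (j, z)) '' C (j + 1) := by
      rintro ⟨j, z⟩ hz
      exact Set.mem_iUnion.2 ⟨j, z, hz, rfl⟩
    exact (h1.mono h2).to_subtype
  have hlast : ∀ i : ι, ∃ y ∈ i.1.2.2, i.1.2.2.getLast? = some y := fun i => klimB_last hg i.1.1 (hCA _ i.2)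
  choose Y hYm hYl using hlast
  have hkn : ∀ i : ι, KN p x i.1.2.1 (Y i) := fun i => (hg.ok _ _ (hCA _ i.2)).kn _ (hYm i)
  have hval : ∀ (i : ι) (G : Flt (Cn Ω md β)), i.1.2.1 ∈ G.car → e i.1.1 G = Y i := fun i G hG =>
    klimB_val hg (hCA _ i.2) (hYl i) hG
  let T : Flt (Cn Ω md β) → Set (List ℕ) := fun G => Cl fun j => (e j G).a
  have hT : BT T := bt_cl fun j => (hg.dv j).comp fun y => y.a
  have hseq := (kgen_seq hg).mono hw
  have hwT : FA w fun G => TC md (T G) := hseq.imp fun G _ h => h.no.tc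
  -- the generic filter meets all `C (j + 1)`
  have hmeet : FA w fun G => ∀ j, ∃ i : ι, i.1.1 = j ∧ i.1.2.1 ∈ G.car := by
    refine FA.all fun j => ?_
    have h1 : Frc {c | ∃ z ∈ C (j + 1), c = z.1} w := by
      intro c hc
      obtain ⟨r, hr, z, hz, hrz⟩ := hCd (j + 1) c hc
      exact ⟨r, hr, z.1, ⟨z, hz, rfl⟩, hrz⟩
    refine (FA_mt_frc h1).imp ?_
    rintro G _ ⟨c, ⟨z, hz, rfl⟩, hcG⟩
    exact ⟨⟨(j, z), hz⟩, rfl, hcG⟩
  let B : ι → Set (Cn Ω md β) := fun i => {b | b ≤ i.1.2.1}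
  have hB : ∀ i, Opn (B i) := fun i b hb c hc => hc.trans hb
  have hBG : ∀ (i : ι) {θ : Ω} (G : Flt (Cn Ω md θ)), mt (B i) (rs β G) ↔ i.1.2.1 ∈ (rs β G).car := by
    intro i θ G
    constructor
    · rintro ⟨b, hb, hbG⟩
      exact (rs β G).up _ hbG _ hb
    · intro h
      exact ⟨i.1.2.1, show i.1.2.1 ≤ i.1.2.1 from le_rfl, h⟩
  have hρ : ∀ i : ι, ∀ b ∈ B i, b ≤ w → b ≤ tr β (Y i).r ∧
      FA b fun G => T G ∩ abv Set.univ (Y i).a ⊆ ev ((Y i).r.co β) G := by
    intro i b hb hbw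
    refine ⟨le_trans hb (hkn i).le, ((kgen_sub hg).mono (hbw.trans hw)).imp fun G hG h => ?_⟩
    have h1 := h i.1.1
    rw [hval i G (G.up _ hG _ hb)] at h1
    exact h1
  -- the active indices are the nodes on the branch
  have hact : ∀ {θ : Ω} (G : Flt (Cn Ω md θ)) (i : ι), Act β B (fun i => (Y i).a) i G →
      (e i.1.1 (rs β G)).a ∈ gb β G ∧ e i.1.1 (rs β G) = Y i := by
    rintro θ G i ⟨h1, h2⟩
    have h3 := hval i (rs β G) ((hBG i G).1 h1)
    exact ⟨by rw [h3]; exact h2, h3⟩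
  have hact' : ∀ {θ : Ω} (G : Flt (Cn Ω md θ)), (∀ j, ∃ i : ι, i.1.1 = j ∧ i.1.2.1 ∈ (rs β G).car) → ∀ j,
      (e j (rs β G)).a ∈ gb β G → ∃ i : ι, Act β B (fun i => (Y i).a) i G ∧ e j (rs β G) = Y i := by
    intro θ G h j hj
    obtain ⟨i, rfl, hi⟩ := h j
    have h3 := hval i (rs β G) hi
    refine ⟨i, ⟨(hBG i G).2 hi, ?_⟩, h3⟩
    rw [h3] at hj
    exact hj
  obtain ⟨r, hrw, hrβ, _, hr1, hr2⟩ := exists_glp hβ w hT hwT B (fun i => (Y i).a) (fun i => (Y i).r) hB hρ (by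
    intro η hβη hη v hvw hs hm
    have h1 := FA.proj hβη.le (hmeet.mono hvw)
    have h2 := klim_path hβ hg hβη hη v (hvw.trans hw) hs (by
      refine h1.imp₂ hm fun G _ h3 h4 j hj => ?_
      obtain ⟨i, hi, he⟩ := hact' G h3 j hj
      rw [he]
      exact h4 i hi)
    refine h1.imp₂ h2 fun G _ h3 h4 => ?_
    have h5 : IP β B (fun i => (Y i).a) (fun i => (Y i).r) η G =
        {s | ∀ j, (e j (rs β G)).a ∈ gb β G → s ∈ ev ((e j (rs β G)).r.co η) G} := by
      ext s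
      constructor
      · intro h j hj
        obtain ⟨i, hi, he⟩ := hact' G h3 j hj
        rw [he]
        exact h i hi
      · intro h i hi
        obtain ⟨h6, h7⟩ := hact G i hi
        have h8 := h i.1.1 h6
        rw [h7] at h8
        exact h8
    rw [h5]
    exact h4)
  have hmr : FA r fun G => ∀ j, ∃ i : ι, i.1.1 = j ∧ i.1.2.1 ∈ (rs β G).car :=
    FA.proj hβ.le (by rw [hrw]; exact hmeet)
  have hbr : FA r fun G => gb β G ⊆ Cl fun j => (e j (rs β G)).a := by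
    refine gb_sub_of hβ r (T := T) ?_
    rw [hrβ, hrw]
    exact (bt_ev_mkn hT w).imp fun G _ h => h.subset
  refine ⟨r, ?_, hbr, ?_⟩
  · -- `r ≤ p`
    refine Cn.sep fun v hv => ?_
    obtain ⟨r₁, hr₁, z, hz, hrz⟩ := hCd 1 (tr β v) ((tr_mono hv β).trans hrw.le)
    obtain ⟨v', hv'1, _, hv'2, _⟩ := exists_join hβ.le v r₁ hr₁
    let i : ι := ⟨(0, z), hz⟩
    have h1 : FA v' fun G => (Y i).a ∈ gb β G := by
      have hvr : v' ≤ r := hv'2.trans hv
      have h2 := FA.proj hβ.le (hseq.mono ((tr_mono hvr β).trans hrw.le))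
      have h3 : FA v' fun G => Branch (gb β G) := gb_branch hβ v'
      refine ((h2.and h3).and (hbr.mono hvr)).imp ?_
      rintro G hG ⟨⟨g2, g3⟩, g4⟩
      have h4 := g2.no.zero_mem g3 g4
      have h5 : z.1 ∈ (rs β G).car := by
        refine (rs β G).up _ (tr_mem_rs hG β) _ ?_
        rw [hv'1]
        exact hrz
      have h6 := hval i (rs β G) h5
      have h7 : (e 0 (rs β G)).a ∈ gb β G := h4
      rw [h6] at h7
      exact h7
    have h8 : v' ≤ (Y i).r := hr1 v' (hv'2.trans hv) i (by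
      show tr β v' ≤ z.1
      rw [hv'1]
      exact hrz) (le_tp_of_FA hβ h1)
    exact ⟨v', hv'2, h8.trans (hkn i).lep⟩
  · have h1 := hr2 ζ hβ le_rfl
    rw [tr_self] at h1
    refine hmr.imp₂ h1 fun G _ h3 h4 j hj => ?_
    obtain ⟨i, hi, he⟩ := hact' G h3 j hj
    have h5 := h4 i hi
    rw [tr_self] at h5
    rw [he]
    exact h5

end Pool.Agent.Lib.MP_011f3a_lc.LM

/-! # The key lemma (module K-MAIN)

Replace `p` by a normal condition (`exists_norm`); `exists_kgen`, `exists_klim`. `f G = kf (a) (D) (S)` for the generic sequences (decidable by `DV`, countable quantifiers). For `G ∋ q` sufficiently generic the hypothesis `hx` of `seq_sc` holds by `KN.fx` (for the conditions `r_j ∈ G`; there are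
countably many possible values of `e j` below `q` — or use `DV.fa`), and `x ≠ yv …` by the hypothesis on `x` for the countably many names `yv … i σ`. -/

namespace Pool.Agent.Lib.MP_011f3a_lc.LM

variable {Ω : Type} [LinearOrder Ω] [WellFoundedLT Ω] {md : Md} {ζ β η : Ω}

/-- `p` forces that `x` is not in the model `V[G ∩ P_β]` -/
def NotIn (β : Ω) (p : Cn Ω md ζ) (x : Flt (Cn Ω md ζ) → Set ℕ) : Prop :=
  ∀ y : Flt (Cn Ω md β) → Set ℕ, (∀ n, BPr fun G => n ∈ y G) → FA p fun G => x G ≠ y (rs β G)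

open Classical in
/-- the names of the possible initial segments, made total -/
private noncomputable def kmS (y : KE Ω md ζ β) (l : ℕ) (G : Flt (Cn Ω md β)) : Finset (List Bool) :=
  if ∀ i, DV (y.S i) then y.S l G else ∅

private theorem km_dv (y : KE Ω md ζ β) (l : ℕ) : DV (kmS y l) := by
  unfold kmS
  by_cases h : ∀ i, DV (y.S i)
  · simp only [if_pos h]
    exact h l
  · simp only [if_neg h]
    exact DV.const _

private theorem km_eq {y : KE Ω md ζ β} (h : ∀ i, DV (y.S i)) (l : ℕ) (G : Flt (Cn Ω md β)) : kmS y l G = y.S l G := by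
  unfold kmS
  rw [if_pos h]

private theorem km_mem {e : ℕ → Flt (Cn Ω md β) → KE Ω md ζ β} (hd : ∀ i, DV (e i)) (j l : ℕ) (σ : List Bool) :
    BPr fun G => σ ∈ kmS (e j G) l G :=
  DV.bpr (hd j) fun y => DV.bpr' (km_dv y l) fun F => σ ∈ F

private theorem km_un {e : ℕ → Flt (Cn Ω md β) → KE Ω md ζ β} (hd : ∀ i, DV (e i)) (i l : ℕ) (σ : List Bool) :
    BPr fun G => σ ∈ Un (fun j l => kmS (e j G) l G) i l := by
  have h1 : BPr fun G => ∃ j' : ℕ, j' ≤ i ∧ σ ∈ kmS (e j' G) l G :=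
    BPr.exists fun j' => (BPr.const _).and (km_mem hd j' l σ)
  exact h1

private theorem km_unD {e : ℕ → Flt (Cn Ω md β) → KE Ω md ζ β} (hd : ∀ i, DV (e i)) (i j : ℕ) (σ : List Bool) :
    BPr fun G => σ ∈ Un (fun j l => kmS (e j G) l G) i (e j G).D := by
  have h1 : BPr fun G => σ ∈ Un (fun j l => kmS (e j G) l G) i ((fun y : KE Ω md ζ β => y.D) (e j G)) := by
    have h2 : DV fun G => (e j G).D := (hd j).comp fun y => y.D
    exact DV.bpr (Ψ := fun d G => σ ∈ Un (fun j l => kmS (e j G) l G) i d) h2 fun d => km_un hd i d σ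
  exact h1

private theorem km_kf {e : ℕ → Flt (Cn Ω md β) → KE Ω md ζ β} (hd : ∀ i, DV (e i)) (z : List Bool × List ℕ) :
    BPr fun G => z ∈ kf (fun j => (e j G).a) (fun j => (e j G).D) fun j l => kmS (e j G) l G := by
  have h1 : BPr fun G => ∃ i : ℕ, z.1.length = (e (i + 1) G).D ∧
      z.1 ∉ Un (fun j l => kmS (e j G) l G) i (e (i + 1) G).D ∧ z.2 = (e (i + 1) G).a := by
    refine BPr.exists fun i => ?_
    refine BPr.and ?_ (BPr.and ?_ ?_)
    · exact DV.bpr' (hd (i + 1)) fun y => z.1.length = y.D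
    · exact BPr.not (km_unD hd i (i + 1) z.1)
    · exact DV.bpr' (hd (i + 1)) fun y => z.2 = y.a
  exact h1

private theorem km_yv {e : ℕ → Flt (Cn Ω md β) → KE Ω md ζ β} (hd : ∀ i, DV (e i)) (i : ℕ) (σ : List Bool) (m : ℕ) :
    BPr fun G => m ∈ yv (fun j l => kmS (e j G) l G) (fun j => (e j G).D) i σ := by
  have h1 : BPr fun G => ∃ l : ℕ, ∃ τ : List Bool, (e i G).D ≤ l ∧ τ ∈ Un (fun j l => kmS (e j G) l G) i l ∧
      τ.take (e i G).D = σ ∧ τ[m]? = some true := by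
    refine BPr.exists fun l => BPr.exists fun τ => ?_
    refine BPr.and ?_ (BPr.and ?_ (BPr.and ?_ (BPr.const _)))
    · exact DV.bpr' (hd i) fun y => y.D ≤ l
    · exact km_un hd i l τ
    · exact DV.bpr' (hd i) fun y => τ.take y.D = σ
  exact h1

theorem kl1 (hβ : β < ζ) (p : Cn Ω md ζ) {x : Flt (Cn Ω md ζ) → Set ℕ} (hx : ∀ n, BPr fun G => n ∈ x G) (hn : NotIn β p x) :
    ∃ q ≤ p, ∃ f : Flt (Cn Ω md β) → Set (List Bool × List ℕ), (∀ z, BPr fun G => z ∈ f G) ∧
      FA q fun G => SC (f (rs β G)) (x G) (gb β G) := by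
  obtain ⟨p', hp', hnr, -, -⟩ := exists_norm p
  have hpp : p' ≤ p := (hp' 0).le
  obtain ⟨A, e, hg⟩ := exists_kgen hβ hx hnr
  obtain ⟨q, hq, hq1, hq2⟩ := exists_klim hβ hg
  have hd : ∀ i, DV (e i) := fun i => GSys.dv hg i
  have htr : tr β q ≤ tr β p' := tr_mono hq β
  refine ⟨q, hq.trans hpp, fun G => kf (fun j => (e j G).a) (fun j => (e j G).D) fun j l => kmS (e j G) l G,
    fun z => km_kf hd z, ?_⟩
  -- the facts about the generic sequence
  have h1 : FA q fun G => KSeq md (fun j => (e j (rs β G)).a) (fun j => (e j (rs β G)).u)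
      (fun j => (e j (rs β G)).t) (fun j => (e j (rs β G)).D) (fun j i => (e j (rs β G)).n i (rs β G))
      fun j i => (e j (rs β G)).S i (rs β G) :=
    FA.proj hβ.le (Ψ := fun G' => KSeq md (fun j => (e j G').a) (fun j => (e j G').u)
      (fun j => (e j G').t) (fun j => (e j G').D) (fun j i => (e j G').n i G')
      fun j i => (e j G').S i G') (FA.mono (kgen_seq hg) htr)
  have h2 : FA q fun G => ∀ j, ∃ c ∈ (rs β G).car, KN p' x c (e j (rs β G)) ∧
      ∀ i, j = i + 1 → KP c (e (par i) (rs β G)) (e j (rs β G)) :=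
    FA.proj hβ.le (Ψ := fun G' => ∀ j, ∃ c ∈ G'.car, KN p' x c (e j G') ∧
      ∀ i, j = i + 1 → KP c (e (par i) G') (e j G')) (FA.mono (kgen_kn hg) htr)
  have h3 : FA q fun G => Branch (gb β G) := gb_branch hβ q
  -- the values of the names of the initial segments
  have h4 : FA q fun G => ∀ j, (FA (e j (rs β G)).r fun G' => ∀ i, (e j (rs β G)).a ++ [(e j (rs β G)).n i (rs β G')] ∈ gb β G' →
      Rx i (x G') ∈ (e j (rs β G)).S i (rs β G')) → (e j (rs β G)).r ∈ G.car →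
      ∀ i, (e j (rs β G)).a ++ [(e j (rs β G)).n i (rs β G)] ∈ gb β G → Rx i (x G) ∈ (e j (rs β G)).S i (rs β G) := by
    refine FA.all fun j => ?_
    have hdj : DV fun G : Flt (Cn Ω md ζ) => e j (rs β G) := DV.proj hβ.le (hd j)
    refine DV.fa (Ψ := fun y G => (FA y.r fun G' => ∀ i, y.a ++ [y.n i (rs β G')] ∈ gb β G' →
      Rx i (x G') ∈ y.S i (rs β G')) → y.r ∈ G.car →
      ∀ i, y.a ++ [y.n i (rs β G)] ∈ gb β G → Rx i (x G) ∈ y.S i (rs β G)) hdj ?_
    intro v _ y _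
    by_cases hy : FA y.r fun G' => ∀ i, y.a ++ [y.n i (rs β G')] ∈ gb β G' → Rx i (x G') ∈ y.S i (rs β G')
    · refine FA.imp (FA.cond hy v) ?_
      intro G _ h5 _ h6
      exact h5 h6
    · exact FA.of_forall fun G _ hy' => absurd hy' hy
  -- the names of reals of the smaller model
  have h5 : FA q fun G => ∀ z : ℕ × List Bool, x G ≠ yv (fun j l => kmS (e j (rs β G)) l (rs β G))
      (fun j => (e j (rs β G)).D) z.1 z.2 := by
    refine FA.all fun z => ?_
    exact FA.mono (hn (fun G' => yv (fun j l => kmS (e j G') l G') (fun j => (e j G').D) z.1 z.2)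
      fun m => km_yv hd z.1 z.2 m) (hq.trans hpp)
  refine FA.imp (FA.and (FA.and h1 h2) (FA.and (FA.and h3 (FA.and hq1 hq2)) (FA.and h4 h5))) ?_
  rintro G _ ⟨⟨hS, hK⟩, ⟨hb, hc, hr⟩, hf, hy⟩
  have hkm : (fun j l => kmS (e j (rs β G)) l (rs β G)) = fun j i => (e j (rs β G)).S i (rs β G) := by
    funext j l
    obtain ⟨c, _, hk, -⟩ := hK j
    exact km_eq hk.dS l _
  show SC (kf (fun j => (e j (rs β G)).a) (fun j => (e j (rs β G)).D) fun j l => kmS (e j (rs β G)) l (rs β G)) (x G) (gb β G)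
  rw [hkm] at hy ⊢
  refine seq_sc hS hb hc ?_ fun i σ => hy (i, σ)
  intro j hj i hi
  obtain ⟨c, _, hk, -⟩ := hK j
  exact hf j hk.fx (hr j hj) i hi

end Pool.Agent.Lib.MP_011f3a_lc.LM

/-! # Homogeneous data (module H-DATA)

`In c x`: the condition `c` forces that `x` belongs to the set `X` of reals (abstract). `Dat md δ`: a condition `h ∈ HC md δ`, a name `T` of a set of finite sequences and a name `f` of a set of pairs, all hereditarily countable: at most `𝔠` many. `Works β (h, T, f)`: `q`, `x`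
as required exist at `β`. `exists_works`: for `β` with `CofU β`: take `p'' ≤ p`, `x` from the hypothesis with `ε = β`, `kl1` gives `q₁`, `f₁`; `exists_nmC` for `f₁` below `tr β q₁` (as a `Set (List Bool × List ℕ)`-valued name), join, `hc_dense`: `q`; `tr β q` and `q.co β` (a full name is not in
`NmC`: but then `HC` allows `full`; use `exists_nmC` for `ev (q.co β)` in this case, or for all: extend `tr β q` once more — simplest: apply `exists_nmC` to `T G = ev (q.co β) G` below `tr β q`, join, and take a condition of `HC md β` below the new `tr β q`), bounded by some `δ < β`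
(`nmC_bd`, `exists_bd`). -/

namespace Pool.Agent.Lib.MP_011f3a_lc.LM

open Cardinal

variable {Ω : Type} [LinearOrder Ω] [WellFoundedLT Ω] {md : Md} {ζ ξ η τ δ β : Ω}

/-- the hypotheses on `In` -/
structure InH (In : Cn Ω md τ → (Flt (Cn Ω md τ) → Set ℕ) → Prop) (p : Cn Ω md τ) : Prop where
  mono : ∀ c c' x, c' ≤ c → In c x → In c' x
  big : ∀ ε < τ, ∀ p' ≤ p, ∃ q ≤ p', ∃ x, BR x ∧ In q x ∧ NotIn ε q x

variable (md) in
/-- the data -/
structure Dat (δ : Ω) where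
  /-- a condition -/
  h : Cn Ω md δ
  /-- a name of a tree -/
  T : List ℕ → Set (Cn Ω md δ)
  /-- a name of a code -/
  f : List Bool × List ℕ → Set (Cn Ω md δ)
  hh : h ∈ HC md δ
  hT : T ∈ NmC md δ (List ℕ)
  hf : f ∈ NmC md δ (List Bool × List ℕ)

theorem card_Dat (h : Om2 τ) (hδ : δ < τ) : #(Dat md δ) ≤ 𝔠 := by
  have h1 : #(HC md δ) ≤ 𝔠 := card_HC h hδ
  have h2 : #(NmC md δ (List ℕ)) ≤ 𝔠 := card_NmC h hδ (List ℕ)
  have h3 : #(NmC md δ (List Bool × List ℕ)) ≤ 𝔠 := card_NmC h hδ (List Bool × List ℕ)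
  have h0 : (ℵ₀ : Cardinal.{0}) ≤ 𝔠 := aleph0_le_continuum
  let F : Dat md δ → (HC md δ) × ((NmC md δ (List ℕ)) × (NmC md δ (List Bool × List ℕ))) :=
    fun d => (⟨d.h, d.hh⟩, (⟨d.T, d.hT⟩, ⟨d.f, d.hf⟩))
  have hF : Function.Injective F := by
    intro d e hde
    rcases d with ⟨dh, dT, df, dhh, dhT, dhf⟩
    rcases e with ⟨eh, eT, ef, ehh, ehT, ehf⟩
    have e1 : dh = eh := congrArg Subtype.val (congrArg Prod.fst hde)
    have e2 : dT = eT := congrArg Subtype.val (congrArg Prod.fst (congrArg Prod.snd hde))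
    have e3 : df = ef := congrArg Subtype.val (congrArg Prod.snd (congrArg Prod.snd hde))
    subst e1
    subst e2
    subst e3
    rfl
  refine (mk_le_of_injective hF).trans ?_
  rw [mk_prod, mk_prod, lift_id, lift_id, lift_id, lift_id]
  calc #(HC md δ) * (#(NmC md δ (List ℕ)) * #(NmC md δ (List Bool × List ℕ)))
      ≤ 𝔠 * (𝔠 * 𝔠) := mul_le_mul' h1 (mul_le_mul' h2 h3)
    _ = 𝔠 := by rw [mul_eq_self h0, mul_eq_self h0]

/-- the data `d` work at `β` -/
def Works (In : Cn Ω md τ → (Flt (Cn Ω md τ) → Set ℕ) → Prop) (p : Cn Ω md τ) (β : Ω) (d : Dat md δ) : Prop :=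
  δ < β ∧ ∃ q ≤ p, ∃ x, BR x ∧ In q x ∧ tr β q = tr β d.h ∧ (FA (tr β q) fun G => Nm (ev (q.co β) G)) ∧
    (FA (tr β q) fun G => ev (q.co β) G = ev d.T (rs δ G)) ∧
    FA q fun G => SC (ev d.f (rs δ G)) (x G) (gb β G)

end Pool.Agent.Lib.MP_011f3a_lc.LM
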