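import Pool.Agent.Lib.MP_011f3a_lc.LM.D.LPs

/-! # Preparation (module K-PREP)

`k'` = `k` plus `1` at `β`. `exists_stable` (and `exists_norm`; the tree at `β` keeps its first splitting node, `TLe.st`), join with `w`: stable condition `p*`, `PrH`. `exists_gsys` with `Ok = POk …`, `cw_all β 0` gives `w'`, `exists_comb` gives `r`; finally
`exists_norm`. `n i G = (e i G).n`, `S i G = (e i G).S.image (List.take i)`. The set of the children of `a` in `r(β)` contains all `a ++ [n i]` (`ev (r.co β) G = ⋃ …`, `CmbOk.sub`, `TC.of_subset_abv`). Below `a ++ [n i]` the condition `(e i G).ρ` belongs to `G`, so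
`Fx` holds. The trees above `β`: the last statement of `exists_comb`: the tree of `r` at `η` is that of `(e l).ρ`, i.e. of `(e l).r`, and `PLe k' (e l).r p*`. -/

namespace Pool.Agent.Lib.MP_011f3a_lc.LM

variable {Ω : Type} [LinearOrder Ω] [WellFoundedLT Ω] {md : Md} {ζ β η : Ω}

/-- what is known in the model `V[G ∩ P_β]` about the children of `a` -/
structure PrG (N : ℕ) (S : ℕ → Finset (List Bool)) (n : ℕ → ℕ) (T : Set (List ℕ)) (a : List ℕ) : Prop where
  thin : Thin N S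
  mono : StrictMono n
  mem : ∀ i, a ++ [n i] ∈ T

/-- the facts about the sequence of the objects which do not depend on the filter -/
private structure PrQ (β : Ω) (k' : Ω →₀ ℕ) (p : Cn Ω md ζ) (x : Flt (Cn Ω md ζ) → Set ℕ) (L M : ℕ)
    (e : ℕ → PE Ω md ζ) : Prop where
  ple : ∀ l, PLe k' (e l).r p
  rle : ∀ l, (e l).ρ ≤ (e l).r
  coe : ∀ l η, β < η → (e l).ρ.co η = (e l).r.co η
  fx : ∀ l, Fx x (L + l) (e l).r (e l).S
  card : ∀ l, (e l).S.card = M
  len : ∀ l, ∀ σ ∈ (e l).S, σ.length = L + l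
  res : ∀ l, (e (l + 1)).S.image (List.take (L + l)) = (e l).S
  inc : StrictMono fun l => (e l).n

private theorem prq_of {k' : Ω →₀ ℕ} {p : Cn Ω md ζ} {x : Flt (Cn Ω md ζ) → Set ℕ} {a : List ℕ} {L M : ℕ}
    {e : ℕ → PE Ω md ζ}
    (h : ∀ l : ℕ, ∃ c : Cn Ω md β, POk β k' p x a L M c (List.ofFn fun i : Fin l => e i)) :
    PrQ β k' p x L M e := by
  have hmem : ∀ l, e l ∈ (List.ofFn fun i : Fin (l + 1) => e i) := by
    intro l
    rw [List.mem_ofFn]
    exact ⟨⟨l, Nat.lt_succ_self l⟩, rfl⟩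
  refine ⟨?_, ?_, ?_, ?_, ?_, ?_, ?_, ?_⟩
  · intro l
    obtain ⟨c, hc⟩ := h (l + 1)
    exact hc.ple _ (hmem l)
  · intro l
    obtain ⟨c, hc⟩ := h (l + 1)
    exact (hc.rle _ (hmem l)).1
  · intro l
    obtain ⟨c, hc⟩ := h (l + 1)
    exact (hc.rle _ (hmem l)).2
  · intro l
    obtain ⟨c, hc⟩ := h (l + 1)
    have h1 := hc.val l (by simp)
    simp only [List.getElem_ofFn] at h1
    exact h1.1
  · intro l
    obtain ⟨c, hc⟩ := h (l + 1)
    have h1 := hc.val l (by simp)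
    simp only [List.getElem_ofFn] at h1
    exact h1.2.1
  · intro l
    obtain ⟨c, hc⟩ := h (l + 1)
    have h1 := hc.val l (by simp)
    simp only [List.getElem_ofFn] at h1
    exact h1.2.2
  · intro l
    obtain ⟨c, hc⟩ := h (l + 2)
    have h1 := hc.res l (by simp)
    simp only [List.getElem_ofFn] at h1
    exact h1
  · refine strictMono_nat_of_lt_succ fun l => ?_
    obtain ⟨c, hc⟩ := h (l + 2)
    have h1 := hc.inc
    rw [List.pairwise_iff_getElem] at h1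
    have h2 := h1 l (l + 1) (by simp) (by simp) (Nat.lt_succ_self l)
    simpa only [List.getElem_ofFn] using h2

private theorem prq_thin {k' : Ω →₀ ℕ} {p : Cn Ω md ζ} {x : Flt (Cn Ω md ζ) → Set ℕ} {L M : ℕ}
    {e : ℕ → PE Ω md ζ} (h : PrQ β k' p x L M e) :
    Thin M fun i => (e i).S.image (List.take i) := by
  refine ⟨fun i => ?_, fun i σ hσ => ?_, fun i σ hσ => ?_, fun i σ hσ => ?_⟩
  · exact Finset.card_image_le.trans (h.card i).le
  · simp only [Finset.mem_image] at hσ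
    obtain ⟨τ, hτ, rfl⟩ := hσ
    rw [List.length_take, h.len i τ hτ]
    omega
  · simp only [Finset.mem_image] at hσ ⊢
    obtain ⟨τ, hτ, rfl⟩ := hσ
    refine ⟨τ.take (L + i), ?_, ?_⟩
    · rw [← h.res i]
      exact Finset.mem_image_of_mem _ hτ
    · rw [List.take_take, List.take_take]
      congr 1
      omega
  · simp only [Finset.mem_image] at hσ ⊢
    obtain ⟨τ, hτ, rfl⟩ := hσ
    rw [← h.res i] at hτ
    simp only [Finset.mem_image] at hτ
    obtain ⟨τ', hτ', rfl⟩ := hτ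
    refine ⟨τ'.take (i + 1), ⟨τ', hτ', rfl⟩, ?_⟩
    rw [List.take_take, List.take_take]
    congr 1
    omega

theorem prep (hβ : β < ζ) (p : Cn Ω md ζ) (hn : NR p) {x : Flt (Cn Ω md ζ) → Set ℕ} (hx : ∀ n, BPr fun G => n ∈ x G)
    (k : Ω →₀ ℕ) (hk : ∀ ξ ≤ β, k ξ = 0) (w : Cn Ω md β) (hw : w ≤ tr β p) (a : List ℕ) (ha : FA w fun G => St (ev (p.co β) G) a) :
    ∃ r ≤ p, tr β r ≤ w ∧ NR r ∧ (FA (tr β r) fun G => St (ev (r.co β) G) a) ∧
      (∀ ξ, β < ξ → ξ < ζ → FA (tr ξ r) fun G => TLe (k ξ) (ev (r.co ξ) G) (ev (p.co ξ) G)) ∧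
      ∃ (S : ℕ → Flt (Cn Ω md β) → Finset (List Bool)) (n : ℕ → Flt (Cn Ω md β) → ℕ) (N : ℕ), (∀ i, DV (S i)) ∧ (∀ i, DV (n i)) ∧
        (FA (tr β r) fun G => PrG N (fun i => S i G) (fun i => n i G) (ev (r.co β) G) a) ∧
        FA r fun G => ∀ i, a ++ [n i (rs β G)] ∈ gb β G → Rx i (x G) ∈ S i (rs β G) := by
  classical
  -- the modified `k`
  set k' : Ω →₀ ℕ := k + Finsupp.single β 1 with hk'
  have hkb : k' β = 1 := by
    rw [hk', Finsupp.add_apply, hk β le_rfl, Finsupp.single_eq_same]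
  have hkl : ∀ ξ < β, k' ξ = 0 := by
    intro ξ hξ
    rw [hk', Finsupp.add_apply, hk ξ hξ.le, Finsupp.single_apply, if_neg (ne_of_gt hξ), add_zero]
  have hkg : ∀ ξ, β < ξ → k' ξ = k ξ := by
    intro ξ hξ
    rw [hk', Finsupp.add_apply, Finsupp.single_apply, if_neg (ne_of_lt hξ), add_zero]
  -- the stable condition
  obtain ⟨p₀, hp₀w, hp₀co, hp₀, -⟩ := exists_join hβ.le p w hw
  obtain ⟨p₁, hp₁, L, M, -, hst⟩ := exists_stable hx k' p₀
  obtain ⟨p₂, hp₂, hn₂, -, -⟩ := exists_norm p₁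
  have h20 : PLe k' p₂ p₀ := (hp₂ k').trans hp₁
  have h2w : tr β p₂ ≤ w := by
    have h1 := tr_mono h20.le β
    rwa [hp₀w] at h1
  have ha₂ : FA (tr β p₂) fun G => St (ev (p₂.co β) G) a := by
    have h1 := h20 β hβ
    rw [hkb, hp₀co β le_rfl] at h1
    have h2 : FA (tr β p₂) fun G => Nm (ev (p.co β) G) := (hn β hβ).mono (h2w.trans hw)
    have h3 : FA (tr β p₂) fun G => St (ev (p.co β) G) a := ha.mono h2w
    exact (h1.and h2).imp₂ h3 fun G _ h4 h5 => h4.1.st one_pos h4.2 h5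
  have hP : PrH β k' p₂ x (tr β p₂) a L M :=
    { lt := hβ
      bx := hx
      kb := hkb
      kl := hkl
      nr := hn₂
      hw := le_rfl
      ha := ha₂
      st := fun q hq l hl => hst q (hq.trans (hp₂ k')) l hl }
  -- the generic recursion
  obtain ⟨A, e, hg⟩ := exists_gsys (POk β k' p₂ x a L M) (tr β p₂) (fun c c' h h1 h2 => h1.mono h2)
    (pok_nil _) (fun c h h1 h2 => prep_step hP c h h1 h2)
  -- capturing
  obtain ⟨w', hw', hcap⟩ := cw_all (md := md) β 0 (tr β p₂) (fun l => {c | ∃ x ∈ A l, c ≤ x.1})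
    (fun l c hc q hq => by
      obtain ⟨y, hy, h1⟩ := hc
      exact ⟨y, hy, hq.trans h1⟩)
    (fun l q hq => by
      obtain ⟨r, hr, y, hy, h1⟩ := hg.dns l q hq
      exact ⟨r, hr, y, hy, h1⟩)
  have hw'' : w' ≤ tr β p₂ := hw'.le
  -- the combination
  obtain ⟨r₀, hr₀, hr₀w, hU, hS, -, hG, hη⟩ := exists_comb hβ p₂ (tr β p₂) w' le_rfl hw'' a
    (fun y : PE Ω md ζ => y.n) (fun y => y.ρ) hg (fun c h h1 y hy => h1.cmb y hy) (fun c h h1 => h1.inc) hcap
  obtain ⟨r, hr, hnr, -, hreq⟩ := exists_norm r₀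
  have hrr₀ : r ≤ r₀ := (hr 0).le
  have hrw' : tr β r ≤ w' := by
    have h1 := tr_mono hrr₀ β
    rwa [hr₀w] at h1
  have hrw₂ : tr β r ≤ tr β p₂ := hrw'.trans hw''
  -- the static facts
  have hQ : FA (tr β p₂) fun G => PrQ β k' p₂ x L M fun l => e l G := by
    have h1 := hg.fa (Ψ := fun h _ => ∃ c : Cn Ω md β, POk β k' p₂ x a L M c h)
      (fun c h h2 => FA.of_forall fun G _ => ⟨c, h2⟩)
    exact h1.imp fun G _ h2 => prq_of h2
  -- the child belongs to the tree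
  have hC : FA (tr β p₂) fun G => ∀ l, a ++ [(e l G).n] ∈ ev ((e l G).ρ.co β) G := by
    have h1 := hg.fa (Ψ := fun h G => ∀ i : Fin h.length, a ++ [(h[i]).n] ∈ ev ((h[i]).ρ.co β) G)
      (fun c h h2 => FA.all fun i => by
        have h3 := h2.cmb _ (List.getElem_mem i.2)
        have h4 := ((h[i]).ρ.good β).mono h3.le
        exact h4.imp₂ h3.sub fun G _ h5 h6 => h5.of_subset_abv h6)
    refine h1.imp fun G _ h2 l => ?_
    have h3 := h2 (l + 1) ⟨l, by simp⟩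
    simpa only [Fin.getElem_fin, List.getElem_ofFn] using h3
  -- the tree at `β`
  have hE : FA (tr β r) fun G => ev (r.co β) G = ev (r₀.co β) G := by
    refine (hreq β hβ).imp₂ (hS.mono hrw') fun G _ h1 h2 => h1 h2.2
  refine ⟨r, hrr₀.trans (hr₀.trans (h20.le.trans hp₀)), hrw₂.trans h2w, hnr, ?_, ?_,
    fun i G => (e i G).S.image (List.take i), fun i G => (e i G).n, M,
    fun i => (hg.dv i).comp fun y => y.S.image (List.take i), fun i => (hg.dv i).comp fun y => y.n, ?_, ?_⟩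
  · refine hE.imp₂ (hS.mono hrw') fun G _ h1 h2 => ?_
    rw [h1]
    exact h2.1
  · intro ξ hβξ hξζ
    have hrξ : tr ξ r ≤ tr ξ r₀ := tr_mono hrr₀ ξ
    have h1 := (hη ξ hβξ hξζ).mono hrξ
    -- the static facts at `ξ`
    have h2 : FA (tr ξ r) fun G => PrQ β k' p₂ x L M fun l => e l (rs β G) := by
      refine FA.proj hβξ.le (Ψ := fun G => PrQ β k' p₂ x L M fun l => e l G) ?_
      rw [tr_tr _ hβξ.le]
      exact hQ.mono hrw₂
    have h3 : FA (tr ξ r) fun G => ∀ l, PLe k' (e l (rs β G)).r p₂ → (e l (rs β G)).ρ ≤ (e l (rs β G)).r →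
        tr ξ (e l (rs β G)).ρ ∈ G.car → TLe (k' ξ) (ev ((e l (rs β G)).r.co ξ) G) (ev (p₂.co ξ) G) := by
      refine FA.all fun l => ?_
      refine DV.fa (y := fun G : Flt (Cn Ω md ξ) => e l (rs β G))
        (Ψ := fun y G => PLe k' y.r p₂ → y.ρ ≤ y.r →
          tr ξ y.ρ ∈ G.car → TLe (k' ξ) (ev (y.r.co ξ) G) (ev (p₂.co ξ) G)) ((hg.dv l).proj hβξ.le) ?_
      intro v _ y _
      by_cases h4 : PLe k' y.r p₂ ∧ y.ρ ≤ y.r
      · refine ((h4.1 ξ hξζ).cond v).imp fun G _ h5 _ _ h6 => h5 ?_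
        exact G.up _ h6 _ (tr_mono h4.2 ξ)
      · exact FA.of_forall fun G _ h5 h6 => absurd ⟨h5, h6⟩ h4
    have h4 := hr k' ξ hξζ
    have h5 : FA (tr ξ r) fun G => TLe (k' ξ) (ev (p₂.co ξ) G) (ev (p₀.co ξ) G) :=
      (h20 ξ hξζ).mono (tr_mono (hrr₀.trans hr₀) ξ)
    rw [hp₀co ξ hβξ.le] at h5
    refine (h1.and (h2.and h3)).imp₂ (h4.and h5) fun G _ h6 h7 => ?_
    obtain ⟨⟨l, h8, h9⟩, h10, h11⟩ := h6
    have h12 := h11 l (h10.ple l) (h10.rle l) h8
    rw [← h10.coe l ξ hβξ, ← h9] at h12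
    rw [← hkg ξ hβξ]
    exact h7.1.trans (h12.trans h7.2)
  · refine ((hQ.mono hrw₂).and (hC.mono hrw₂)).imp₂ (hE.and (hU.mono hrw')) fun G _ h1 h2 => ?_
    refine ⟨prq_thin h1.1, h1.1.inc, fun i => ?_⟩
    rw [h2.1, h2.2]
    exact Set.mem_iUnion.2 ⟨i, h1.2 i⟩
  · have h1 := hG.mono hrr₀
    have h2 : FA r fun G => PrQ β k' p₂ x L M fun l => e l (rs β G) :=
      FA.proj hβ.le (Ψ := fun G => PrQ β k' p₂ x L M fun l => e l G) (hQ.mono hrw₂)
    have h3 : FA r fun G => ∀ l, Fx x (L + l) (e l (rs β G)).r (e l (rs β G)).S →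
        (e l (rs β G)).ρ ≤ (e l (rs β G)).r → (e l (rs β G)).ρ ∈ G.car → Rx (L + l) (x G) ∈ (e l (rs β G)).S := by
      refine FA.all fun l => ?_
      refine DV.fa (y := fun G : Flt (Cn Ω md ζ) => e l (rs β G))
        (Ψ := fun y G => Fx x (L + l) y.r y.S → y.ρ ≤ y.r → y.ρ ∈ G.car → Rx (L + l) (x G) ∈ y.S)
        ((hg.dv l).proj hβ.le) ?_
      intro v _ y _
      by_cases h4 : Fx x (L + l) y.r y.S ∧ y.ρ ≤ y.r
      · refine (FA.cond h4.1 v).imp fun G _ h5 _ _ h6 => h5 ?_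
        exact G.up _ h6 _ h4.2
      · exact FA.of_forall fun G _ h5 h6 => absurd ⟨h5, h6⟩ h4
    refine (h1.and h2).imp₂ h3 fun G _ h4 h5 i hi => ?_
    have h6 := h5 i (h4.2.fx i) (h4.2.rle i) (h4.1 i hi)
    simp only [Finset.mem_image]
    exact ⟨_, h6, take_Rx (Nat.le_add_left i L) (x G)⟩

end Pool.Agent.Lib.MP_011f3a_lc.LM

/-! # The main recursion of the key lemma (module K-OK)

An object `y : KE` is a node: a condition `y.r` with first splitting node `y.a` at `β`, prepared (`prep`): names `y.S i`, `y.n i`; `y.k` the part of the trees above `β` which is kept from now on; `y.D` a level; `y.u` the child of the parent above which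
`y.a` lies, `y.t` its number in the enumeration of the parent. `KOk c h`: the condition `c` accepts the list `h` of nodes. The parent of the node number `i + 1` is the node number `par i`. `en r` enumerates the support of `r`. -/

namespace Pool.Agent.Lib.MP_011f3a_lc.LM

variable {Ω : Type} [LinearOrder Ω] [WellFoundedLT Ω] {md : Md} {ζ β η : Ω}

/-- a node -/
structure KE (Ω : Type) [LinearOrder Ω] [WellFoundedLT Ω] (md : Md) (ζ β : Ω) where
  /-- the condition -/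
  r : Cn Ω md ζ
  /-- the first splitting node at `β` -/
  a : List ℕ
  /-- the possible initial segments of `x` below the children -/
  S : ℕ → Flt (Cn Ω md β) → Finset (List Bool)
  /-- the enumeration of the children -/
  n : ℕ → Flt (Cn Ω md β) → ℕ
  /-- the kept part above `β` -/
  k : Ω →₀ ℕ
  /-- the level -/
  D : ℕ
  /-- the child of the parent -/
  u : ℕ
  /-- its number -/
  t : ℕ

theorem exists_en (Ω : Type) [LinearOrder Ω] [WellFoundedLT Ω] (md : Md) (ζ : Ω) :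
    ∃ en : Cn Ω md ζ → ℕ → Ω, ∀ r, ∀ ξ ∈ r.supp, ∃ t, en r t = ξ := by
  haveI : Nonempty Ω := ⟨ζ⟩
  have h : ∀ r : Cn Ω md ζ, ∃ f : ℕ → Ω, r.supp ⊆ Set.range f := fun r =>
    Set.countable_iff_exists_subset_range.1 r.supp_countable
  choose f hf using h
  exact ⟨f, fun r ξ hξ => hf r hξ⟩

/-- enumeration of the support -/
noncomputable def en (r : Cn Ω md ζ) : ℕ → Ω := (exists_en Ω md ζ).choose r

theorem mem_en (r : Cn Ω md ζ) : ∀ ξ ∈ r.supp, ∃ t, en r t = ξ := (exists_en Ω md ζ).choose_spec r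

/-- the properties of one node -/
structure KN (p : Cn Ω md ζ) (x : Flt (Cn Ω md ζ) → Set ℕ) (c : Cn Ω md β) (y : KE Ω md ζ β) : Prop where
  le : c ≤ tr β y.r
  lep : y.r ≤ p
  nr : NR y.r
  st : FA c fun G => St (ev (y.r.co β) G) y.a
  dS : ∀ i, DV (y.S i)
  dn : ∀ i, DV (y.n i)
  pr : ∃ N, FA c fun G => PrG N (fun i => y.S i G) (fun i => y.n i G) (ev (y.r.co β) G) y.a
  fx : FA y.r fun G => ∀ i, y.a ++ [y.n i (rs β G)] ∈ gb β G → Rx i (x G) ∈ y.S i (rs β G)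
  kz : ∀ ξ ≤ β, y.k ξ = 0

/-- the properties of a node `y'` and its parent `y` -/
structure KP (c : Cn Ω md β) (y y' : KE Ω md ζ β) : Prop where
  le : y'.r ≤ y.r
  tle : ∀ ξ, β < ξ → ξ < ζ → FA (tr ξ y'.r) fun G => TLe (y.k ξ) (ev (y'.r.co ξ) G) (ev (y.r.co ξ) G)
  kle : ∀ ξ, y.k ξ ≤ y'.k ξ
  sub : FA c fun G => ev (y'.r.co β) G ⊆ abv Set.univ (y.a ++ [y'.u])
  nu : FA c fun G => y.n y'.t G = y'.u
  lav : md = Md.laver → y'.a = y.a ++ [y'.u]

/-- the condition `c` accepts the list `h` -/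
structure KOk (β : Ω) (p : Cn Ω md ζ) (x : Flt (Cn Ω md ζ) → Set ℕ) (c : Cn Ω md β) (h : List (KE Ω md ζ β)) : Prop where
  kn : ∀ y ∈ h, KN p x c y
  kp : ∀ (i : ℕ) (hi : i + 1 < h.length), KP c (h[par i]'((par_le i).trans_lt (i.lt_succ_self.trans hi))) h[i + 1]
  tD : ∀ (i : ℕ) (hi : i + 1 < h.length), (h[i]).D ≤ (h[i + 1]).t
  uu : ∀ (i j : ℕ) (hj : j + 1 < h.length) (hij : i < j), par i = par j → (h[i + 1]).u < (h[j + 1]).u
  DD : ∀ (i : ℕ) (hi : i + 1 < h.length), (h[i]).D < (h[i + 1]).D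
  inj : ∀ (j : ℕ) (hj : j < h.length), FA c fun G => ∀ l, (h[j]).D ≤ l →
    Set.InjOn (List.take (h[j]).D) {σ | ∃ (j' : ℕ) (hj' : j' ≤ j), σ ∈ (h[j'].S l G)}
  kk : ∀ (j j' i : ℕ) (hj : j < h.length) (hj' : j' ≤ j), i ≤ j → β < en (h[j']).r i → j + 1 ≤ (h[j]).k (en (h[j']).r i)

variable {p : Cn Ω md ζ} {x : Flt (Cn Ω md ζ) → Set ℕ}

private theorem KN.mono' {c c' : Cn Ω md β} {y : KE Ω md ζ β} (h : KN p x c y) (hc : c' ≤ c) : KN p x c' y where
  le := hc.trans h.le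
  lep := h.lep
  nr := h.nr
  st := h.st.mono hc
  dS := h.dS
  dn := h.dn
  pr := by
    obtain ⟨N, hN⟩ := h.pr
    exact ⟨N, hN.mono hc⟩
  fx := h.fx
  kz := h.kz

private theorem KP.mono' {c c' : Cn Ω md β} {y y' : KE Ω md ζ β} (h : KP c y y') (hc : c' ≤ c) : KP c' y y' where
  le := h.le
  tle := h.tle
  kle := h.kle
  sub := h.sub.mono hc
  nu := h.nu.mono hc
  lav := h.lav

theorem KOk.mono {c c' : Cn Ω md β} {h : List (KE Ω md ζ β)} (hk : KOk β p x c h) (hc : c' ≤ c) : KOk β p x c' h where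
  kn := fun y hy => (hk.kn y hy).mono' hc
  kp := fun i hi => (hk.kp i hi).mono' hc
  tD := hk.tD
  uu := hk.uu
  DD := hk.DD
  inj := fun j hj => (hk.inj j hj).mono hc
  kk := hk.kk

theorem kok_nil (c : Cn Ω md β) : KOk β p x c [] where
  kn := fun y hy => by simp at hy
  kp := fun i hi => by simp at hi
  tD := fun i hi => by simp at hi
  uu := fun i j hj => by simp at hj
  DD := fun i hi => by simp at hi
  inj := fun j hj => by simp at hj
  kk := fun j j' i hj => by simp at hj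

end Pool.Agent.Lib.MP_011f3a_lc.LM
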