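import Pool.Agent.Lib.MP_011f3a_lc.LM.K.Prep

/-! # The step of the main recursion (module K-STEP)

`exists_kD`: given the names `S j` (`j < h.length` and the new one), by `exists_sep` it is forced that some `D > D₀` has the injectivity property; decide it (`FA.exists_of_BPr`; the event for fixed `D` is decidable, `DV.bpr'`). `exists_kk`: the function `k` for the
new node (finite support above `β`). `kstep_zero`: the first node: decide the first splitting node of `p(β)`, `prep` with `k = 0`. `kstep_succ`: `h.length = i + 1`, parent `y = h[par i]`: join `c` and `y.r`; choose a number `t ≥ (h[i]).D` which is larger than the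
values of `t` of the earlier children of this parent, so that the child `u = y.n t` is larger than the earlier children (`PrG.mono`; the earlier children are `u' = y.n t'`); decide `u`; restrict to `y.a ++ [u]` (`exists_restr`, normal by
`nm_abv`), decide the first splitting node `a` of the restricted tree (`exists_St`; in the Laver case it is `y.a ++ [u]`, `Laver.st_abv`); `prep` with `k = y.k`. -/

namespace Pool.Agent.Lib.MP_011f3a_lc.LM

variable {Ω : Type} [LinearOrder Ω] [WellFoundedLT Ω] {md : Md} {ζ β η : Ω} {p : Cn Ω md ζ} {x : Flt (Cn Ω md ζ) → Set ℕ}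

private theorem kst_dv {P : Type} [Preorder P] (L : List (ℕ → Flt P → Finset (List Bool))) (hL : ∀ S ∈ L, ∀ i, DV (S i))
    (l : ℕ) : DV fun G : Flt P => {σ | ∃ S ∈ L, σ ∈ S l G} := by
  induction L with
  | nil =>
    have h1 : (fun G : Flt P => {σ : List Bool | ∃ S ∈ ([] : List (ℕ → Flt P → Finset (List Bool))), σ ∈ S l G}) =
        fun _ => ∅ := by
      funext G
      ext σ
      simp
    rw [h1]
    exact DV.const _
  | cons T L ih =>
    have h1 : (fun G : Flt P => {σ : List Bool | ∃ S ∈ T :: L, σ ∈ S l G}) =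
        fun G => (↑(T l G) : Set (List Bool)) ∪ {σ | ∃ S ∈ L, σ ∈ S l G} := by
      funext G
      ext σ
      simp
    rw [h1]
    have h2 := (hL T List.mem_cons_self l).pair (ih fun S hS => hL S (List.mem_cons_of_mem _ hS))
    exact h2.comp fun z : Finset (List Bool) × Set (List Bool) => (↑z.1 : Set (List Bool)) ∪ z.2

private theorem kst_thin {P : Type} [Preorder P] {c : P} (L : List (ℕ → Flt P → Finset (List Bool)))
    (hT : ∀ S ∈ L, ∃ N, FA c fun G => Thin N fun i => S i G) :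
    FA c fun G => ∀ S ∈ L, ∃ N, Thin N fun i => S i G := by
  induction L with
  | nil => exact FA.of_forall fun G _ S hS => absurd hS List.not_mem_nil
  | cons T L ih =>
    obtain ⟨N, hN⟩ := hT T List.mem_cons_self
    refine hN.imp₂ (ih fun S hS => hT S (List.mem_cons_of_mem _ hS)) fun G _ h1 h2 S hS => ?_
    rcases List.mem_cons.1 hS with h3 | h3
    · subst h3
      exact ⟨N, h1⟩
    · exact h2 S h3

theorem exists_kD (c : Cn Ω md β) (L : List (ℕ → Flt (Cn Ω md β) → Finset (List Bool))) (hL : ∀ S ∈ L, ∀ i, DV (S i))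
    (hT : ∀ S ∈ L, ∃ N, FA c fun G => Thin N fun i => S i G) (D₀ : ℕ) :
    ∃ c' ≤ c, ∃ D > D₀, FA c' fun G => ∀ l, D ≤ l → Set.InjOn (List.take D) {σ | ∃ S ∈ L, σ ∈ S l G} := by
  have h1 : FA c fun G => ∃ D : ℕ, D₀ < D ∧ ∀ l, D ≤ l → Set.InjOn (List.take D) {σ | ∃ S ∈ L, σ ∈ S l G} := by
    refine (kst_thin L hT).imp fun G _ h2 => ?_
    rcases Nat.eq_zero_or_pos L.length with h0 | h0
    · refine ⟨D₀ + 1, Nat.lt_succ_self _, fun l _ σ hσ => ?_⟩
      obtain ⟨S, hS, -⟩ := hσ
      rw [List.length_eq_zero_iff] at h0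
      subst h0
      exact absurd hS List.not_mem_nil
    · have h3 : ∀ j : ℕ, min j (L.length - 1) < L.length := fun j => by omega
      obtain ⟨D, hD, h4⟩ := exists_sep (S := fun j l => (L[min j (L.length - 1)]'(h3 j)) l G)
        (fun j => h2 _ (List.getElem_mem (h3 j))) (L.length - 1) D₀
      refine ⟨D, hD, fun l hl => (h4 l hl).mono ?_⟩
      rintro σ ⟨S, hS, hσ⟩
      obtain ⟨j, hj, rfl⟩ := List.getElem_of_mem hS
      refine ⟨j, by omega, ?_⟩
      have h5 : min j (L.length - 1) = j := by omega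
      have h6 : L[min j (L.length - 1)]'(h3 j) = L[j] := getElem_congr_idx h5
      change σ ∈ (L[min j (L.length - 1)]'(h3 j)) l G
      rw [h6]
      exact hσ
  obtain ⟨c', hc', D, hD⟩ := FA.exists_of_BPr (w := c)
    (Ψ := fun (D : ℕ) G => D₀ < D ∧ ∀ l, D ≤ l → Set.InjOn (List.take D) {σ | ∃ S ∈ L, σ ∈ S l G})
    (fun D => (BPr.const _).and (BPr.all fun l => (BPr.const _).imp
      ((kst_dv L hL l).bpr' fun z : Set (List Bool) => Set.InjOn (List.take D) z))) h1
  obtain ⟨G, -, h2⟩ := hD.exists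
  exact ⟨c', hc', D, h2.1, hD.imp fun G _ h3 => h3.2⟩

theorem exists_kk (β : Ω) (k : Ω →₀ ℕ) (hk : ∀ ξ ≤ β, k ξ = 0) (L : List (Cn Ω md ζ)) (m : ℕ) :
    ∃ k' : Ω →₀ ℕ, (∀ ξ ≤ β, k' ξ = 0) ∧ (∀ ξ, k ξ ≤ k' ξ) ∧ ∀ r ∈ L, ∀ i ≤ m, β < en r i → m + 1 ≤ k' (en r i) := by
  classical
  set F : Finset Ω := (L.flatMap fun r => (List.range (m + 1)).map (en r)).toFinset with hF
  refine ⟨k + Finsupp.onFinset F (fun ξ => if ξ ∈ F ∧ β < ξ then m + 1 else 0) (fun ξ h1 => ?_), fun ξ hξ => ?_,
    fun ξ => ?_, fun r hr i hi hen => ?_⟩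
  · by_contra h2
    rw [if_neg fun h3 => h2 h3.1] at h1
    exact h1 rfl
  · rw [Finsupp.add_apply, Finsupp.onFinset_apply, hk ξ hξ, if_neg fun h3 => absurd h3.2 (not_lt.2 hξ)]
  · rw [Finsupp.add_apply]
    exact Nat.le_add_right _ _
  · have h1 : en r i ∈ F := by
      rw [hF, List.mem_toFinset, List.mem_flatMap]
      exact ⟨r, hr, List.mem_map.2 ⟨i, List.mem_range.2 (Nat.lt_succ_of_le hi), rfl⟩⟩
    rw [Finsupp.add_apply, Finsupp.onFinset_apply, if_pos ⟨h1, hen⟩]
    exact Nat.le_add_left _ _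

theorem kstep_zero (hβ : β < ζ) (hx : ∀ n, BPr fun G => n ∈ x G) (hn : NR p) (c : Cn Ω md β) (hc : c ≤ tr β p) :
    ∃ c' ≤ c, ∃ y, KOk β p x c' [y] := by
  have h1 : FA c fun G => ∃ a, St (ev (p.co β) G) a :=
    (((p.good β).mono hc).imp₂ ((hn β hβ).mono hc) fun G _ h2 h3 => exists_St h2 h3)
  obtain ⟨w, hw, a, ha⟩ := FA.exists_of_BPr (fun a => bt_st (bt_ev (p.co β)) a) h1
  obtain ⟨r, hr, hrw, hnr, hst, -, S, n, N, hS, hn', hpr, hfx⟩ :=
    prep hβ p hn hx 0 (fun _ _ => rfl) w (hw.trans hc) a ha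
  obtain ⟨c₂, hc₂, D, hD, hinj⟩ := exists_kD (tr β r) [S]
    (fun S' hS' => by
      rw [List.mem_singleton] at hS'
      subst hS'
      exact hS)
    (fun S' hS' => by
      rw [List.mem_singleton] at hS'
      subst hS'
      exact ⟨N, hpr.imp fun G _ h2 => h2.thin⟩) 0
  obtain ⟨k', hk'z, -, hk'k⟩ := exists_kk β 0 (fun _ _ => rfl) [r] 0
  refine ⟨c₂, hc₂.trans (hrw.trans hw), ⟨r, a, S, n, k', D, 0, 0⟩, ?_, ?_, ?_, ?_, ?_, ?_, ?_⟩
  · intro y hy
    rw [List.mem_singleton] at hy
    subst hy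
    exact ⟨hc₂, hr, hnr, hst.mono hc₂, hS, hn', ⟨N, hpr.mono hc₂⟩, hfx, hk'z⟩
  · intro i hi
    exact absurd hi (by simp)
  · intro i hi
    exact absurd hi (by simp)
  · intro i j hj
    exact absurd hj (by simp)
  · intro i hi
    exact absurd hi (by simp)
  · intro j hj
    obtain rfl : j = 0 := by
      rw [List.length_singleton] at hj
      omega
    refine hinj.imp fun G _ h2 l hl => (h2 l hl).mono ?_
    rintro σ ⟨j', hj', hσ⟩
    obtain rfl : j' = 0 := by omega
    exact ⟨S, List.mem_singleton_self _, hσ⟩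
  · intro j j' i hj hj' hi hen
    obtain rfl : j = 0 := by
      rw [List.length_singleton] at hj
      omega
    obtain rfl : j' = 0 := by omega
    exact hk'k r (List.mem_singleton_self _) i hi hen

end Pool.Agent.Lib.MP_011f3a_lc.LM
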